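import Mathlib.Analysis.SpecialFunctions.Pow.Asymptotics
import Mathlib.Analysis.SpecificLimits.Normed

/-!
# Supermultiplicative sequences with a polynomial factor
-/

set_option autoImplicit false

namespace KN

namespace KQ

namespace An

open Filter Topology

theorem pow_bd (s r : ℝ) (hr : 1 < r) : ∃ M : ℝ, ∀ n : ℕ, (n : ℝ) ^ s ≤ M * r ^ n := by
  obtain ⟨k, hk⟩ := exists_nat_ge s
  obtain ⟨M, hM⟩ := (tendsto_pow_const_div_const_pow_of_one_lt k hr).bddAbove_range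
  have h1 : ∀ n : ℕ, (n : ℝ) ^ k ≤ M * r ^ n := by
    intro n
    have h2 : (n : ℝ) ^ k / r ^ n ≤ M := hM ⟨n, rfl⟩
    rwa [div_le_iff₀ (by positivity)] at h2
  refine ⟨M + 1, fun n => ?_⟩
  have h3 : (1 : ℝ) ≤ r ^ n := one_le_pow₀ hr.le
  have h4 := h1 n
  rcases Nat.eq_zero_or_pos n with rfl | hn
  · have h5 : ((0 : ℕ) : ℝ) ^ s ≤ 1 := by
      rw [Nat.cast_zero]
      by_cases hs : s = 0
      · rw [hs, Real.rpow_zero]
      · rw [Real.zero_rpow hs]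
        norm_num
    have h6 : (0 : ℝ) ≤ ((0 : ℕ) : ℝ) ^ k := by positivity
    nlinarith
  · have h5 : (n : ℝ) ^ s ≤ (n : ℝ) ^ k := by
      rw [← Real.rpow_natCast]
      exact Real.rpow_le_rpow_of_exponent_le (by exact_mod_cast hn) hk
    nlinarith

/-- the iteration -/
def it (β : ℕ) (n : ℕ) : ℕ → ℕ
  | 0 => n
  | j + 1 => 2 * (it β n j + β)

theorem it_add (β n : ℕ) : ∀ j, it β n j + 2 * β = 2 ^ j * (n + 2 * β) := by
  intro j
  induction j with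
  | zero => simp [it]
  | succ j ih =>
    have : it β n (j + 1) = 2 * (it β n j + β) := rfl
    rw [this, pow_succ]
    calc 2 * (it β n j + β) + 2 * β = 2 * (it β n j + 2 * β) := by ring
      _ = _ := by rw [ih]; ring

theorem it_ge (β n : ℕ) : ∀ j, n ≤ it β n j := by
  intro j
  induction j with
  | zero => exact le_rfl
  | succ j ih =>
    have : it β n (j + 1) = 2 * (it β n j + β) := rfl
    omega

theorem core (y : ℕ → ℝ) (hy0 : ∀ n, 0 ≤ y n) (g : ℝ) (hg : 1 < g)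
    (hupper : ∀ τ : ℝ, 0 < τ → ∃ C : ℝ, ∀ n : ℕ, y n ≤ C * ((1 + τ) * g) ^ n)
    (β N₀ : ℕ) (h : ∀ n : ℕ, N₀ ≤ n → (y n) ^ 2 ≤ y (2 * (n + β))) :
    ∀ n : ℕ, N₀ ≤ n → y n ≤ g ^ (n + 2 * β) := by
  intro n hn
  have iter : ∀ j : ℕ, (y n) ^ (2 ^ j) ≤ y (it β n j) := by
    intro j
    induction j with
    | zero => simp [it]
    | succ j ih =>
      have h1 := h (it β n j) (hn.trans (it_ge β n j))
      have h2 : (y n) ^ (2 ^ (j + 1)) = ((y n) ^ (2 ^ j)) ^ 2 := by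
        rw [← pow_mul, pow_succ]
      rw [h2]
      exact le_trans (pow_le_pow_left₀ (by have := hy0 n; positivity) ih 2) h1
  by_contra hcon
  push Not at hcon
  set m := n + 2 * β with hm
  obtain ⟨τ, hτ, hτx⟩ : ∃ τ : ℝ, 0 < τ ∧ ((1 + τ) * g) ^ m < y n := by
    have hcont : Tendsto (fun τ : ℝ => ((1 + τ) * g) ^ m) (𝓝[>] 0) (𝓝 (g ^ m)) := by
      have : Continuous (fun τ : ℝ => ((1 + τ) * g) ^ m) := by fun_prop
      have h2 := (this.tendsto 0).mono_left (nhdsWithin_le_nhds (s := Set.Ioi (0 : ℝ)))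
      simpa using h2
    have hev := hcont.eventually (gt_mem_nhds hcon)
    obtain ⟨τ, h1, h2⟩ := (hev.and self_mem_nhdsWithin).exists
    exact ⟨τ, h2, h1⟩
  obtain ⟨C, hC⟩ := hupper τ hτ
  set z := ((1 + τ) * g) ^ m with hz
  have hbase : 1 ≤ (1 + τ) * g := by nlinarith
  have hz0 : 0 < z := by positivity
  have hCn : 0 ≤ C := by
    have h1 := hC 0
    have h2 := hy0 0
    simp only [pow_zero, mul_one] at h1
    linarith
  have key : ∀ j : ℕ, (y n / z) ^ (2 ^ j) ≤ C := by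
    intro j
    have h1 := iter j
    have h3 : y (it β n j) ≤ C * z ^ (2 ^ j) := by
      refine le_trans (hC _) (mul_le_mul_of_nonneg_left ?_ hCn)
      rw [hz, ← pow_mul]
      refine pow_le_pow_right₀ hbase ?_
      have := it_add β n j
      rw [mul_comm m, hm, ← this]
      omega
    rw [div_pow, div_le_iff₀ (by positivity)]
    exact h1.trans h3
  have hxy : 1 < y n / z := by
    rw [one_lt_div hz0]
    exact hτx
  obtain ⟨k, hk⟩ := pow_unbounded_of_one_lt C hxy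
  have h1 := key k
  have h2 : (y n / z) ^ k ≤ (y n / z) ^ (2 ^ k) :=
    pow_le_pow_right₀ hxy.le (Nat.lt_two_pow_self).le
  linarith

theorem coreS (B : ℕ → ℝ) (hB : ∀ n, 0 ≤ B n) (g : ℝ) (hg : 1 < g)
    (hupper : ∀ τ : ℝ, 0 < τ → ∃ C : ℝ, ∀ n : ℕ, B n ≤ C * ((1 + τ) * g) ^ n)
    (s : ℝ) (hs : 0 ≤ s) (β N₀ : ℕ) (c : ℝ) (hc : 0 < c)
    (h : ∀ n : ℕ, N₀ ≤ n → c * (n : ℝ) ^ s * (B n) ^ 2 ≤ B (2 * (n + β))) :
    ∃ C : ℝ, ∀ n : ℕ, 1 ≤ n → B n ≤ C * (n : ℝ) ^ (-s) * g ^ n := by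
  have hg0 : 0 < g := by linarith
  have h1 := core (fun n => c * (n : ℝ) ^ s * B n) (fun n => by have := hB n; positivity) g hg
    (by
      intro τ hτ
      have hr : 1 < Real.sqrt (1 + τ) := by
        rw [Real.lt_sqrt (by norm_num)]
        linarith
      obtain ⟨M, hM⟩ := pow_bd s (Real.sqrt (1 + τ)) hr
      obtain ⟨C, hC⟩ := hupper (Real.sqrt (1 + τ) - 1) (by linarith)
      refine ⟨c * M * C, fun n => ?_⟩
      have h2 := hM n
      have h3 := hC n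
      rw [show 1 + (Real.sqrt (1 + τ) - 1) = Real.sqrt (1 + τ) by ring] at h3
      have h4 : (0 : ℝ) ≤ (n : ℝ) ^ s := by positivity
      have h5 : (n : ℝ) ^ s * B n ≤ (M * Real.sqrt (1 + τ) ^ n) *
          (C * (Real.sqrt (1 + τ) * g) ^ n) :=
        mul_le_mul h2 h3 (hB n) (h4.trans h2)
      have h6 : Real.sqrt (1 + τ) ^ n * (Real.sqrt (1 + τ) * g) ^ n = ((1 + τ) * g) ^ n := by
        rw [← mul_pow, ← mul_assoc, Real.mul_self_sqrt (by linarith)]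
      calc c * (n : ℝ) ^ s * B n = c * ((n : ℝ) ^ s * B n) := by ring
        _ ≤ c * ((M * Real.sqrt (1 + τ) ^ n) * (C * (Real.sqrt (1 + τ) * g) ^ n)) :=
          mul_le_mul_of_nonneg_left h5 hc.le
        _ = c * M * C * (Real.sqrt (1 + τ) ^ n * (Real.sqrt (1 + τ) * g) ^ n) := by ring
        _ = _ := by rw [h6])
    β N₀ (by
      intro n hn
      have h2 := h n hn
      have h3 : (n : ℝ) ^ s ≤ ((2 * (n + β) : ℕ) : ℝ) ^ s := by
        refine Real.rpow_le_rpow (Nat.cast_nonneg _) ?_ hs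
        exact_mod_cast (by omega : n ≤ 2 * (n + β))
      have h4 : (0 : ℝ) ≤ (n : ℝ) ^ s := by positivity
      calc (c * (n : ℝ) ^ s * B n) ^ 2 = c * (n : ℝ) ^ s * (c * (n : ℝ) ^ s * (B n) ^ 2) := by ring
        _ ≤ c * ((2 * (n + β) : ℕ) : ℝ) ^ s * B (2 * (n + β)) := by
          refine mul_le_mul (mul_le_mul_of_nonneg_left h3 hc.le) h2 ?_ (by positivity)
          positivity)
  refine ⟨g ^ (2 * β) / c + ∑ k ∈ Finset.range N₀, B k * (k : ℝ) ^ s / g ^ k, fun n hn => ?_⟩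
  have hn0 : (0 : ℝ) < n := by exact_mod_cast hn
  have hns : (0 : ℝ) < (n : ℝ) ^ s := Real.rpow_pos_of_pos hn0 _
  rw [Real.rpow_neg hn0.le]
  have hterm : ∀ k : ℕ, 0 ≤ B k * (k : ℝ) ^ s / g ^ k := by
    intro k
    have := hB k
    positivity
  have hsum : 0 ≤ ∑ k ∈ Finset.range N₀, B k * (k : ℝ) ^ s / g ^ k :=
    Finset.sum_nonneg fun k _ => hterm k
  have hgn : 0 < g ^ n := by positivity
  have key : B n * (n : ℝ) ^ s / g ^ n ≤
      g ^ (2 * β) / c + ∑ k ∈ Finset.range N₀, B k * (k : ℝ) ^ s / g ^ k := by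
    by_cases hcase : N₀ ≤ n
    · have h2 := h1 n hcase
      have h3 : B n * (n : ℝ) ^ s / g ^ n ≤ g ^ (2 * β) / c := by
        rw [div_le_div_iff₀ hgn hc]
        rw [pow_add] at h2
        calc B n * (n : ℝ) ^ s * c = c * (n : ℝ) ^ s * B n := by ring
          _ ≤ g ^ n * g ^ (2 * β) := h2
          _ = _ := by ring
      linarith
    · push Not at hcase
      have h2 : B n * (n : ℝ) ^ s / g ^ n ≤
          ∑ k ∈ Finset.range N₀, B k * (k : ℝ) ^ s / g ^ k :=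
        Finset.single_le_sum (f := fun k : ℕ => B k * (k : ℝ) ^ s / g ^ k)
          (fun k _ => hterm k) (Finset.mem_range.2 hcase)
      have : 0 ≤ g ^ (2 * β) / c := by positivity
      linarith
  rw [div_le_iff₀ hgn] at key
  calc B n = (B n * (n : ℝ) ^ s) * ((n : ℝ) ^ s)⁻¹ := by
        rw [mul_assoc, mul_inv_cancel₀ hns.ne', mul_one]
    _ ≤ _ := mul_le_mul_of_nonneg_right key (by positivity)
    _ = _ := by ring

/-- an upper bound gives an upper bound for the exponent -/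
theorem expo (f : ℕ → ℝ) (g s : ℝ) (hg : 0 < g) (h : ∃ C : ℝ, ∀ n : ℕ, 1 ≤ n →
      f n ≤ C * (n : ℝ) ^ (-s) * g ^ n) (A α : ℝ) (hA : 0 < A)
    (hlim : Tendsto (fun j : ℕ => f (2 * j) / ((2 * j : ℝ) ^ (α - 3) * g ^ (2 * j))) atTop
      (𝓝 A)) : α ≤ 3 - s := by
  obtain ⟨C, hC⟩ := h
  by_contra hcon
  push Not at hcon
  have h1 : ∀ᶠ j : ℕ in atTop,
      f (2 * j) / ((2 * j : ℝ) ^ (α - 3) * g ^ (2 * j)) ≤
        C * (2 * j : ℝ) ^ (-(α - (3 - s))) := by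
    filter_upwards [eventually_ge_atTop 1] with j hj
    have hj' : (0 : ℝ) < 2 * j := by
      have : (1 : ℝ) ≤ j := by exact_mod_cast hj
      linarith
    have h2 := hC (2 * j) (by omega)
    push_cast at h2
    have hgp : 0 < g ^ (2 * j) := pow_pos hg _
    have hp : 0 < (2 * j : ℝ) ^ (α - 3) := Real.rpow_pos_of_pos hj' _
    rw [div_le_iff₀ (mul_pos hp hgp)]
    have e : (2 * j : ℝ) ^ (-(α - (3 - s))) * (2 * j : ℝ) ^ (α - 3) = (2 * j : ℝ) ^ (-s) := by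
      rw [← Real.rpow_add hj']
      congr 1
      ring
    calc f (2 * j) ≤ C * (2 * j : ℝ) ^ (-s) * g ^ (2 * j) := h2
      _ = C * ((2 * j : ℝ) ^ (-(α - (3 - s))) * (2 * j : ℝ) ^ (α - 3)) * g ^ (2 * j) := by rw [e]
      _ = _ := by ring
  have h0 : Tendsto (fun j : ℕ => C * (2 * j : ℝ) ^ (-(α - (3 - s)))) atTop (𝓝 (C * 0)) := by
    refine Tendsto.const_mul C ?_
    refine (tendsto_rpow_neg_atTop (by linarith)).comp ?_
    exact Tendsto.const_mul_atTop (by norm_num) tendsto_natCast_atTop_atTop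
  rw [mul_zero] at h0
  have := le_of_tendsto_of_tendsto hlim h0 h1
  linarith

/-- three sequences with an asymptotic form -/
theorem expo3 (P Q R : ℕ → ℝ) (s : ℝ) (hR : ∀ n, 0 ≤ R n)
    (hmain : ∃ (β N₀ : ℕ) (c : ℝ), 0 < c ∧ ∀ j : ℕ, N₀ ≤ j →
      c * (2 * j : ℝ) ^ s * (P (2 * j) * Q (2 * j)) ≤ R (2 * (2 * j + β)))
    (g : ℝ) (hg : 0 < g) (A₁ A₂ A₃ α₁ α₂ α₃ : ℝ) (hA₁ : 0 < A₁) (hA₂ : 0 < A₂)
    (h1 : Tendsto (fun j : ℕ => P (2 * j) / ((2 * j : ℝ) ^ (α₁ - 3) * g ^ (2 * j))) atTop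
      (𝓝 A₁))
    (h2 : Tendsto (fun j : ℕ => Q (2 * j) / ((2 * j : ℝ) ^ (α₂ - 3) * g ^ (2 * j))) atTop
      (𝓝 A₂))
    (h3 : Tendsto (fun j : ℕ => R (2 * j) / ((2 * j : ℝ) ^ (α₃ - 3) * g ^ (2 * j))) atTop
      (𝓝 A₃)) : α₁ + α₂ - 3 + s ≤ α₃ := by
  obtain ⟨β, N₀, c, hc, h⟩ := hmain
  by_contra hcon
  push Not at hcon
  obtain ⟨δ, hδ⟩ : ∃ δ : ℝ, δ = α₁ + α₂ - 3 + s - α₃ := ⟨_, rfl⟩
  have hδ0 : 0 < δ := by linarith
  have e1 := h1.eventually (lt_mem_nhds (show A₁ / 2 < A₁ by linarith))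
  have e2 := h2.eventually (lt_mem_nhds (show A₂ / 2 < A₂ by linarith))
  have e3 := h3.eventually (gt_mem_nhds (show A₃ < A₃ + 1 by linarith))
  have hA₃ : 0 ≤ A₃ := by
    refine ge_of_tendsto' h3 fun j => ?_
    have : 0 ≤ R (2 * j) := hR _
    positivity
  obtain ⟨J₀, hJ₀⟩ := eventually_atTop.1 e3
  obtain ⟨M, hM0, hM⟩ : ∃ M : ℝ, 0 < M ∧ ∀ r : ℝ, 2 ≤ r → r ≤ 2 + β → r ^ (α₃ - 3) ≤ M := by
    refine ⟨(2 : ℝ) ^ (α₃ - 3) + (2 + β : ℝ) ^ (α₃ - 3), by positivity, fun r hr1 hr2 => ?_⟩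
    have a1 : (0 : ℝ) < (2 : ℝ) ^ (α₃ - 3) := by positivity
    have a2 : (0 : ℝ) < (2 + β : ℝ) ^ (α₃ - 3) := by positivity
    rcases le_total 0 (α₃ - 3) with h0 | h0
    · have := Real.rpow_le_rpow (by linarith) hr2 h0
      linarith
    · have := Real.rpow_le_rpow_of_nonpos (by norm_num : (0 : ℝ) < 2) hr1 h0
      linarith
  have key : ∀ᶠ j : ℕ in atTop, c * (A₁ / 2) * (A₂ / 2) * (2 * j : ℝ) ^ δ ≤
      (A₃ + 1) * M * g ^ (2 * β) := by
    filter_upwards [e1, e2, eventually_ge_atTop (N₀ + J₀ + 1)] with j f1 f2 hj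
    have hj1 : (1 : ℝ) ≤ j := by exact_mod_cast (by omega : 1 ≤ j)
    have hX : (0 : ℝ) < 2 * j := by linarith
    have f3 := hJ₀ (2 * j + β) (by omega)
    have hm := h j (by omega)
    push_cast at f3
    have hY : (0 : ℝ) < 2 * (2 * j + β) := by positivity
    have hgp : ∀ i : ℕ, 0 < g ^ i := fun i => pow_pos hg i
    rw [lt_div_iff₀ (mul_pos (Real.rpow_pos_of_pos hX _) (hgp _))] at f1 f2
    rw [div_lt_iff₀ (mul_pos (Real.rpow_pos_of_pos hY _) (hgp _))] at f3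
    have hr1 : (2 : ℝ) ≤ (2 * (2 * j + β)) / (2 * j) := by
      rw [le_div_iff₀ hX]
      have : (0 : ℝ) ≤ β := Nat.cast_nonneg β
      linarith
    have hr2 : (2 * (2 * (j : ℝ) + β)) / (2 * j) ≤ 2 + β := by
      rw [div_le_iff₀ hX]
      have : (0 : ℝ) ≤ β := Nat.cast_nonneg β
      nlinarith
    have hrM := hM _ hr1 hr2
    rw [Real.div_rpow hY.le hX.le, div_le_iff₀ (Real.rpow_pos_of_pos hX _)] at hrM
    -- combine
    have g1 : (A₁ / 2 * ((2 * (j : ℝ)) ^ (α₁ - 3) * g ^ (2 * j))) *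
        (A₂ / 2 * ((2 * (j : ℝ)) ^ (α₂ - 3) * g ^ (2 * j))) ≤ P (2 * j) * Q (2 * j) :=
      mul_le_mul f1.le f2.le (by positivity) (le_trans (by positivity) f1.le)
    have hc23 : 0 < c * (2 * (j : ℝ)) ^ s := by positivity
    have g2 := (mul_le_mul_of_nonneg_left g1 hc23.le).trans (hm.trans f3.le)
    have g3 : (A₃ + 1) * ((2 * (2 * (j : ℝ) + β)) ^ (α₃ - 3) * g ^ (2 * (2 * j + β))) ≤
        (A₃ + 1) * ((M * (2 * (j : ℝ)) ^ (α₃ - 3)) * g ^ (2 * (2 * j + β))) := by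
      refine mul_le_mul_of_nonneg_left ?_ (by linarith)
      exact mul_le_mul_of_nonneg_right hrM (hgp _).le
    have g4 := g2.trans g3
    have p1 : (2 * (j : ℝ)) ^ s * (2 * (j : ℝ)) ^ (α₁ - 3) *
        (2 * (j : ℝ)) ^ (α₂ - 3) = (2 * (j : ℝ)) ^ δ * (2 * (j : ℝ)) ^ (α₃ - 3) := by
      rw [← Real.rpow_add hX, ← Real.rpow_add hX, ← Real.rpow_add hX]
      congr 1
      rw [hδ]
      ring
    have p2 : g ^ (2 * (2 * j + β)) = g ^ (2 * j) * g ^ (2 * j) * g ^ (2 * β) := by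
      rw [← pow_add, ← pow_add]
      congr 1
      ring
    have hfac : 0 < (2 * (j : ℝ)) ^ (α₃ - 3) * (g ^ (2 * j) * g ^ (2 * j)) :=
      mul_pos (Real.rpow_pos_of_pos hX _) (mul_pos (hgp _) (hgp _))
    refine le_of_mul_le_mul_right ?_ hfac
    calc c * (A₁ / 2) * (A₂ / 2) * (2 * (j : ℝ)) ^ δ *
          ((2 * (j : ℝ)) ^ (α₃ - 3) * (g ^ (2 * j) * g ^ (2 * j)))
        = c * (A₁ / 2) * (A₂ / 2) * ((2 * (j : ℝ)) ^ δ * (2 * (j : ℝ)) ^ (α₃ - 3)) *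
          (g ^ (2 * j) * g ^ (2 * j)) := by ring
      _ = c * (2 * (j : ℝ)) ^ s *
          ((A₁ / 2 * ((2 * (j : ℝ)) ^ (α₁ - 3) * g ^ (2 * j))) *
          (A₂ / 2 * ((2 * (j : ℝ)) ^ (α₂ - 3) * g ^ (2 * j)))) := by
        rw [← p1]
        ring
      _ ≤ _ := g4
      _ = _ := by
        rw [p2]
        ring
  have ht : Tendsto (fun j : ℕ => c * (A₁ / 2) * (A₂ / 2) * (2 * j : ℝ) ^ δ) atTop atTop := by
    refine Tendsto.const_mul_atTop (by positivity) ?_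
    refine (tendsto_rpow_atTop hδ0).comp ?_
    exact Tendsto.const_mul_atTop (by norm_num) tendsto_natCast_atTop_atTop
  obtain ⟨j, hj1, hj2⟩ := (key.and (ht.eventually_gt_atTop ((A₃ + 1) * M * g ^ (2 * β)))).exists
  linarith

end An

end KQ

end KN
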