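import Pool.Agent.TH296.KQ.Stm
import Pool.Agent.W606.UB.Count

/-!
# Counting the preimages, general classes
(adapted from `Pool.Agent.W606.UB.Count`)
-/

set_option autoImplicit false

namespace KN

namespace KQ

open Finset Filter Topology UB
open scoped Classical

noncomputable section

/-- the code belongs to the triple -/
def CodeQ (β n m : ℕ) (x : Σ _ : List Dir × List Dir, ℤ × ℤ)
    (y : List Dir × (List Dir × List Dir × List Dir × List Dir × List Dir × List Dir) ×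
      ((ℕ × ℕ) × (ℤ × ℤ))) : Prop :=
  ∃ S S' : List Dir, y.1 = jw y.2.1.1 S y.2.1.2.1 y.2.1.2.2.2.1 S' y.2.1.2.2.2.2.1 ∧
    x.1.1.rotate y.2.2.1.1 = y.2.1.2.2.1 ++ S ∧ x.1.2.rotate y.2.2.1.2 = y.2.1.2.2.2.2.2 ++ S' ∧
    (y.2.1.1 ++ S ++ y.2.1.2.1).length + 1 = n + β ∧
    (y.2.1.2.2.2.1 ++ S' ++ y.2.1.2.2.2.2.1).length + 1 = m + β ∧
    x.2 = y.2.2.2 + relp x.1.1 x.1.2 y.2.1.2.1 y.2.1.2.2.2.2.1 y.2.2.1.1 y.2.2.1.2

theorem codeQ_inj (β n m : ℕ) (x x' : Σ _ : List Dir × List Dir, ℤ × ℤ)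
    (y : List Dir × (List Dir × List Dir × List Dir × List Dir × List Dir × List Dir) ×
      ((ℕ × ℕ) × (ℤ × ℤ))) (h : CodeQ β n m x y) (h' : CodeQ β n m x' y) : x = x' := by
  obtain ⟨⟨w1, w2⟩, t⟩ := x
  obtain ⟨⟨w1', w2'⟩, t'⟩ := x'
  obtain ⟨Wd, ⟨A, B, C, A', B', C'⟩, ⟨k, k'⟩, c⟩ := y
  obtain ⟨S, S', h1, h2, h3, h4, h5, h6⟩ := h
  obtain ⟨R, R', g1, g2, g3, g4, g5, g6⟩ := h'
  simp only at h1 h2 h3 h4 h5 h6 g1 g2 g3 g4 g5 g6
  have e1 : jw A S B A' S' B' = jw A R B A' R' B' := h1.symm.trans g1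
  unfold jw join at e1
  have hlen : (A ++ S ++ B).length = (A ++ R ++ B).length := by omega
  obtain ⟨e2, e3⟩ := List.append_inj e1 hlen
  have e4 : (A' ++ S' ++ B') ++ [Dir.xp] = (A' ++ R' ++ B') ++ [Dir.xp] := by
    injection e3
  have e5 : A' ++ S' ++ B' = A' ++ R' ++ B' := List.append_cancel_right e4
  have e6 : S = R := List.append_cancel_left (List.append_cancel_right e2)
  have e7 : S' = R' := List.append_cancel_left (List.append_cancel_right e5)
  subst e6
  subst e7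
  have e8 : w1 = w1' := List.rotate_injective k (h2.trans g2.symm)
  have e9 : w2 = w2' := List.rotate_injective k' (h3.trans g3.symm)
  subst e8
  subst e9
  rw [h6, g6]

theorem countQ_main (Pc Qc Rc : List Dir → Prop) : Q_count Pc Qc Rc := by
  intro β lam K₀ hG
  set Wl : Finset (List Dir) := (range (2 * lam + 2)).biUnion W with hWl
  have memWl : ∀ w : List Dir, w.length ≤ 2 * lam + 1 → w ∈ Wl := by
    intro w hw
    rw [hWl, Finset.mem_biUnion]
    exact ⟨w.length, Finset.mem_range.2 (by omega), mem_W.2 rfl⟩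
  refine ⟨Wl.card ^ 6 * (2 * K₀ + 1) ^ 2, fun n m hn hm => ?_⟩
  set Z := (K Rc (n + m + 2 * β)).filter (JQ β lam n m) with hZ
  let T : Finset (Σ _ : List Dir × List Dir, ℤ × ℤ) :=
    ((K Pc n) ×ˢ (K Qc m)).sigma (fun y => Rel y.1 y.2)
  let F : Finset (List Dir × (List Dir × List Dir × List Dir × List Dir × List Dir ×
      List Dir) × ((ℕ × ℕ) × (ℤ × ℤ))) :=
    Z ×ˢ ((Wl ×ˢ Wl ×ˢ Wl ×ˢ Wl ×ˢ Wl ×ˢ Wl) ×ˢ ((range n ×ˢ range m) ×ˢ
      (Icc (-(K₀ : ℤ)) K₀ ×ˢ Icc (-(K₀ : ℤ)) K₀)))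
  have hT : T.card = ∑ w1 ∈ K Pc n, ∑ w2 ∈ K Qc m, (Rel w1 w2).card := by
    simp only [T, Finset.card_sigma, Finset.sum_product]
  have hI : (Icc (-(K₀ : ℤ)) K₀).card = 2 * K₀ + 1 := by
    rw [Int.card_Icc]
    omega
  have hF : F.card = (Wl.card ^ 6 * (2 * K₀ + 1) ^ 2) * (n * m) * Z.card := by
    simp only [F, Finset.card_product, Finset.card_range, hI]
    ring
  rw [← hT, ← hF]
  refine Finset.card_le_card_of_forall_subsingleton (CodeQ β n m) ?_ ?_
  · rintro ⟨⟨w1, w2⟩, t⟩ hx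
    simp only [T, Finset.mem_product, Finset.mem_sigma] at hx
    obtain ⟨⟨hw1, hw2⟩, ht⟩ := hx
    obtain ⟨A, B, C, S, A', B', C', S', k, k', hk, hk', hA, hB, hA', hB', r1, r2, l1, l2, m1, m2,
      nr⟩ := hG n m hn hm w1 hw1 w2 hw2 t ht
    have len1 : w1.length = n := mem_W.1 (Finset.mem_filter.1 hw1).1
    have len2 : w2.length = m := mem_W.1 (Finset.mem_filter.1 hw2).1
    have q1 := congrArg List.length r1
    have q2 := congrArg List.length r2
    rw [List.length_rotate, List.length_append, len1] at q1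
    rw [List.length_rotate, List.length_append, len2] at q2
    simp only [List.length_append] at l1 l2
    refine ⟨(jw A S B A' S' B', (A, B, C, A', B', C'), (k, k'),
      t - relp w1 w2 B B' k k'), ?_, S, S', rfl, r1, r2, ?_, ?_, ?_⟩
    · simp only [F, Finset.mem_product, Finset.mem_range, Finset.mem_Icc]
      refine ⟨Finset.mem_filter.2 ⟨m1, m2⟩, ⟨memWl _ (by omega), memWl _ (by omega),
        memWl _ (by omega), memWl _ (by omega), memWl _ (by omega), memWl _ (by omega)⟩,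
        ⟨hk, hk'⟩, ?_, ?_⟩
      · have := nr.2.1
        rw [abs_le] at this
        exact this
      · have := nr.2.2
        rw [abs_le] at this
        exact this
    · simp only [List.length_append]
      omega
    · simp only [List.length_append]
      omega
    · simp only
      ring
  · intro y _ x hx x' hx'
    exact codeQ_inj β n m x x' y hx.2 hx'.2

end

end KQ

end KN
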