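import Pool.Agent.TH296.KQ.Stm
import Pool.Agent.W606.UB.Dock

/-!
# Docks exist, general classes
(adapted from `Pool.Agent.W606.UB.Dock`)
-/

set_option autoImplicit false

namespace KN

namespace KQ

open Finset Filter Topology UB UB.Dk
open scoped Classical

theorem dockQ_main (h1 : P_block) (h2 : P_step)
    (h3 : ∀ Pc : List Dir → Prop, SI Pc → Q_dockS Pc) (h4 : T_rt) (h5 : T_rtc)
    (h6 : S_words) : Q_dock := by
  obtain ⟨v, hvS, hvU, hv⟩ := h1
  refine ⟨30, fun T hT => ⟨2 * (T + 1) + v.length + 3000, 2 * (T + 1) + v.length - 1,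
    fun R hR hLL Pc hP => ?_⟩⟩
  intro w hw hwU hlam x N hC hN
  -- the base point
  obtain ⟨k0, hk0, hfar⟩ := exists_far w hw (by omega) x
  set b : Z3 := pos (w.drop k0) with hb
  set w' := w.rotate k0 with hw'
  have hw'S : SAP w' := ((h6 w hw).2.2 k0).1
  have hw'U : Pc w' := hP _ _ hw hw'S ((h6 w hw).2.2 k0).2 hwU
  have hlen' : w'.length = w.length := List.length_rotate _ _
  have hmem : ∀ p : Z3, p ∈ path w' ↔ p + b ∈ path w := mem_rotate w hw.2.1 k0 hk0.le
  have hC' : Cont R {p | p ∈ path w'} (x - b) N := by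
    obtain ⟨c1, c2, c3, c4⟩ := hC
    refine ⟨?_, c2, c3, ?_⟩
    · show x - b ∈ path w'
      rw [hmem, sub_add_cancel]
      exact c1
    · intro p hp
      have h7 := c4 (p + b) ((hmem p).1 hp)
      have h8 : p + b - x = p - (x - b) := by abel
      rwa [h8] at h7
  have hfar' : ¬ near 6 (x - b) 0 := by
    intro h7
    apply hfar
    rw [near_iff] at h7 ⊢
    simpa using h7
  obtain ⟨d, f, l1, l2, hGd, hnear, hmax⟩ := h2 T 9 R hLL w' hw'S (x - b) N hC' hfar'
  have hperp : perp d f := hGd.1
  obtain ⟨⟨d', f', hp', hd', hf', hinv1, hinv2, hinv3, hinv4⟩, hneg, hpath, hadd⟩ := h5 d f hperp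
  obtain ⟨_, hneg', hpath', hadd'⟩ := h5 d' f' hp'
  set s : Dir := rt d f .xp with hs
  set z : Dir := rt d f .zp with hz
  have hsz : perp s z := rt_perp hperp (by decide)
  have hsd : s = d := rfl
  have hzf : z = f := rfl
  -- the direction
  have hRN : ∀ q : Z3, dt (Rp d f N) q = dt N (Rp d' f' q) := by
    intro q
    rw [← Rp_dt hperp N (Rp d' f' q), hinv4]
  have hN1 : (Rp d f N).1 = dt N (vec (rt d' f' .xp)) := by
    have h7 := hRN (vec .xp)
    rw [vec_rt hp'] at h7
    rw [← h7]
    simp [dt, vec]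
  have hbig : 0 < (Rp d f N).1 := by
    obtain ⟨g, hg⟩ := exists_big N R hR hC.2.1
    have h7 := hmax g
    omega
  have hsxm : s ≠ .xm := by
    intro h7
    have h8 : dt (Rp d f N) (vec s) = N.1 := by
      rw [hs, ← vec_rt hperp, Rp_dt hperp]
      simp [dt, vec]
    rw [h7] at h8
    simp only [dt, vec] at h8
    omega
  have hs1 : 0 ≤ dt (1, 0, 0) (vec s) := by
    revert hsxm
    cases s <;> simp [dt, vec]
  obtain ⟨v1, v2, hvv, hvext⟩ := hv s z hsz hsxm
  have hspotU : Pc (l1 ++ .zp :: l2) := hP _ _ hw'S hGd.2.1.1 hGd.2.2.1 hw'U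
  set A0 : List Dir := v2 ++ List.replicate (T + 1) .xp with hA0
  set B0 : List Dir := List.replicate (T + 1) .xm ++ v1 with hB0
  set e0 : Z3 := pos l2 + ((T : ℤ) + 1, 0, 0) + pos v2 with he0
  obtain ⟨hWS, hWU, hWp⟩ := h3 Pc hP v v1 v2 s z hvS hvU hsz hsxm hvv hvext T l1 l2 hGd.2.1 hspotU
    A0 B0 _ e0 rfl rfl rfl rfl
  have hposv : pos v = (0, 0, 1) := by
    have h7 : pos v + vec .zm = 0 := hvS.1.2.1
    have h8 := eq_neg_of_add_eq_zero_left h7
    rw [h8]
    rfl
  have hpe : e0 + vec z + pos B0 = pos l2 + (0, 0, 1) := by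
    have h7 : pos v1 + (pos v2 + vec z) = (0, 0, 1) := by
      rw [← hposv, hvv, pos_append]
      rfl
    rw [he0, hB0, pos_append, pos_rep_xm, ← h7]
    have h8 : ((T : ℤ) + 1, (0 : ℤ), (0 : ℤ)) + (-((T + 1 : ℕ) : ℤ), 0, 0) = (0 : Z3) := by
      rw [Prod.mk_add_mk, Prod.mk_add_mk]
      push_cast
      simp
    calc pos l2 + ((T : ℤ) + 1, 0, 0) + pos v2 + vec z + ((-((T + 1 : ℕ) : ℤ), 0, 0) + pos v1) =
        pos l2 + (pos v1 + (pos v2 + vec z)) +
          (((T : ℤ) + 1, 0, 0) + (-((T + 1 : ℕ) : ℤ), 0, 0)) := by abel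
      _ = _ := by rw [h8, add_zero]
  obtain ⟨C0, S0, A1, B1, j, hrot, hj, hAl, hBl, hWeq, hposj, hvert, hlen⟩ :=
    cases_Gd (w'.map (rt d f)) l1 l2 A0 B0 z e0 hpe (gd_cases hGd)
  rw [List.length_map] at hj hlen
  have hmm : ∀ l : List Dir, (l.map (rt d f)).map (rt d' f') = l := by
    intro l
    rw [List.map_map]
    conv_rhs => rw [← List.map_id l]
    refine List.map_congr_left fun a _ => ?_
    exact hinv1 a
  have hzb : rt d' f' z = .zp := hinv1 .zp
  have hA0l : A0.length = v2.length + (T + 1) := by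
    rw [hA0, List.length_append, List.length_replicate]
  have hB0l : B0.length = (T + 1) + v1.length := by
    rw [hB0, List.length_append, List.length_replicate]
  have hvl : v.length = v1.length + v2.length + 1 := by
    rw [hvv, List.length_append, List.length_cons]
    omega
  have hWlen := congrArg List.length hWeq
  simp only [List.length_append, List.length_singleton] at hWlen
  have hWmap : ((A0 ++ (l2 ++ l1) ++ B0) ++ [z]).map (rt d' f') =
      (A1.map (rt d' f') ++ S0.map (rt d' f') ++ B1.map (rt d' f')) ++ [.zp] := by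
    rw [hWeq]
    simp only [List.map_append, List.map_cons, List.map_nil, hzb]
  have hrt := h4 d' f' hp' _ hWS
  rw [hWmap] at hrt
  have hpm := (hpath' ((A0 ++ (l2 ++ l1) ++ B0) ++ [z])).2
  rw [hWmap] at hpm
  have hvecd : vec (rt d' f' .xp) = Rp d' f' (vec .xp) := (vec_rt hp' _).symm
  -- positions near x
  have hxx : ∀ i : ℤ, x + i • vec (rt d' f' .xp) =
      Rp d' f' (Rp d f (x - b) + (i, 0, 0)) + b := by
    intro i
    rw [hadd', hinv3]
    have h7 : Rp d' f' (i, 0, 0) = i • vec (rt d' f' .xp) := by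
      have h8 : rt d' f' .xp = d' := rfl
      rw [h8]
      simp [Rp]
    rw [h7]
    abel
  have hnr : ∀ (r : ℕ) (p q : Z3), near r (Rp d' f' p + b) (Rp d' f' q + b) ↔ near r p q := by
    intro r p q
    rw [← Rp_near hp' r p q, near_iff, near_iff]
    simp
  refine ⟨A1.map (rt d' f'), B1.map (rt d' f'), C0.map (rt d' f'), S0.map (rt d' f'),
    (k0 + j) % w.length, Rp d' f' e0 + b, rt d' f' .xp, Nat.mod_lt _ (by omega), ?_, ?_, ?_, ?_,
    hrt.1, hP _ _ hWS hrt.1 hrt.2 hWU, ?_, ?_, ?_, ?_⟩
  · rw [List.length_map]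
    omega
  · rw [List.length_map]
    omega
  · rw [List.rotate_mod, ← List.rotate_rotate, ← hw', ← List.map_append, ← hrot, List.map_rotate,
      hmm]
  · simp only [List.length_append, List.length_map]
    omega
  · rw [drop_rotate w hw.2.1 k0 j hk0 (by omega), ← hw', ← hb]
    have h7 : w'.drop j = ((w'.map (rt d f)).drop j).map (rt d' f') := by
      rw [← List.map_drop, hmm]
    have h8 : Rp d' f' (vec z) = (0, 0, 1) := by
      rw [vec_rt hp', hzb]
      rfl
    rw [h7, (hpath' _).1, hposj, hadd', hadd', h8, ← (hpath' B1).1]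
    abel
  · intro g
    rw [← hN1]
    exact hmax g
  · rw [hxx, hnr]
    have h7 : pos v2 ∈ path v := by
      rw [hvv, mem_append]
      right
      simp only [path, List.mem_cons]
      right
      exact pos_mem_path v2
    have h8 := hvS.2 _ h7
    rw [near_iff] at hnear ⊢
    rw [he0]
    simp only [Prod.fst_add, Prod.snd_add, abs_le, Nat.cast_ofNat] at h8 hnear ⊢
    omega
  · intro p hp
    rw [hpm, List.mem_map] at hp
    obtain ⟨p0, hp0, rfl⟩ := hp
    have hpe0 : Rp d' f' p0 + (Rp d' f' e0 + b) = Rp d' f' (p0 + e0) + b := by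
      rw [hadd' p0 e0, add_assoc]
    have hp1 : (Rp d' f' p0).1 = dt p0 (vec s) := by
      have h7 : dt (Rp d' f' p0) (vec .xp) = dt p0 (Rp d f (vec .xp)) := by
        rw [← Rp_dt hp' p0 (Rp d f (vec .xp)), hinv3]
      rw [vec_rt hperp] at h7
      rw [← h7]
      simp [dt, vec]
    rw [hpe0, hp1]
    rcases hWp p0 hp0 with hq | ⟨hq1, i, hi0, hi1, hq2⟩
    · rcases hvert _ hq with hq | hq
      · left
        rw [← hmem]
        have h7 := hpath (w')
        rw [h7.2, List.mem_map] at hq
        obtain ⟨q, hq1, hq2⟩ := hq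
        rw [← hq2, hinv3]
        exact hq1
      · right
        have h0v : (0 : Z3) ∈ path v := zero_mem_path v
        have h1v : ((0, 0, 1) : Z3) ∈ path v := by
          rw [← hposv]
          exact pos_mem_path v
        have e0v := hvext _ h0v
        have e1v := hvext _ h1v
        have hT0 : (0 : ℤ) ≤ T := by positivity
        refine ⟨?_, 0, le_rfl, by omega, ?_⟩
        · have h7 : p0 + e0 - e0 = p0 := by abel
          rcases hq with hq | hq
          · rw [← h7, hq, he0]
            have h8 : dt (pos l2 - (pos l2 + ((T : ℤ) + 1, 0, 0) + pos v2)) (vec s) =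
                dt 0 (vec s) - ((T : ℤ) + 1) * dt (1, 0, 0) (vec s) - dt (pos v2) (vec s) := by
              simp only [dt, Prod.fst_sub, Prod.snd_sub, Prod.fst_add, Prod.snd_add,
                Prod.fst_zero, Prod.snd_zero]
              ring
            rw [h8]
            nlinarith
          · rw [← h7, hq, he0]
            have h8 : dt (pos l2 + (0, 0, 1) - (pos l2 + ((T : ℤ) + 1, 0, 0) + pos v2)) (vec s) =
                dt (0, 0, 1) (vec s) - ((T : ℤ) + 1) * dt (1, 0, 0) (vec s) -
                  dt (pos v2) (vec s) := by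
              simp only [dt, Prod.fst_sub, Prod.snd_sub, Prod.fst_add, Prod.snd_add]
              ring
            rw [h8]
            nlinarith
        · rw [hxx, hnr]
          rw [near_iff] at hnear ⊢
          rcases hq with hq | hq
          · rw [hq]
            simp only [Prod.fst_add, Prod.snd_add, Nat.cast_ofNat] at hnear ⊢
            omega
          · rw [hq]
            simp only [Prod.fst_add, Prod.snd_add, Nat.cast_ofNat] at hnear ⊢
            omega
    · right
      refine ⟨hq1, i, hi0, by push_cast; omega, ?_⟩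
      rw [hxx, hnr]
      rw [near_iff] at hnear hq2 ⊢
      simp only [Prod.fst_add, Prod.snd_add, Nat.cast_ofNat] at hnear hq2 ⊢
      omega

end KQ

end KN
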