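import Pool.Agent.TH296.KQ.Stm
import Pool.Agent.W606.UB.DockS

/-!
# The dock in the standard frame, general classes
(adapted from `Pool.Agent.W606.UB.DockS`)
-/

set_option autoImplicit false

namespace KN

namespace KQ

open UB UB.DockS344

theorem dockSQ_main (h1 : Q_T1) (h2 : S_words) (Pc : List Dir → Prop) (hP : SI Pc) :
    Q_dockS Pc := by
  intro v v1 v2 s z hsm hUv hperp hs hv hex T l1 l2 hspot hU A B W e hA hB he hW
  obtain ⟨hX, hsame⟩ := h1 T 9 l1 l2 v hspot hsm hUv
  set X : List Dir := l1 ++ blk T v ++ l2 with hXdef
  set P1 : List Dir := l1 ++ List.replicate (T + 1) .xm ++ v1 ++ [z] with hP1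
  set P2 : List Dir := v2 ++ List.replicate (T + 1) .xp ++ l2 with hP2
  have hXP : X = P1 ++ P2 := by
    rw [hXdef, hP1, hP2, blk, hv]
    simp [List.append_assoc]
  have hWP : W = P2 ++ P1 := by
    rw [hW, hA, hB, hP1, hP2]
    simp [List.append_assoc]
  have hWrot : W = X.rotate P1.length := by
    rw [hWP, hXP, List.rotate_append_length_eq]
  have hpv : pos v = (0, 0, 1) := by
    have h := hsm.1.2.1
    rw [pos] at h
    have h' : pos v = - vec .zm := eq_neg_of_add_eq_zero_left h
    rw [h']; rfl
  have hrot := (h2 X hX).2.2 P1.length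
  rw [← hWrot] at hrot
  have hposX : pos (P1 ++ P2) = 0 := by rw [← hXP]; exact hX.2.1
  have heP : e = pos P2 := by
    rw [he, hP2, pos_append, pos_append, pos_rep]
    simp only [vec]
    ext <;> simp <;> ring
  refine ⟨hrot.1, hP _ _ hspot.1 hrot.1 (hsame.symm.trans hrot.2) hU, ?_⟩
  · intro p hp
    rw [hWP] at hp
    have hpe : p + e ∈ path X := by
      rw [heP, hXP]; exact rot_mem P1 P2 hposX p hp
    have hs1 := vec_fst_nonneg hs
    have hv0 : 0 ≤ dt (pos v2) (vec s) := by
      have := hex 0 (zero_mem_path v)
      simpa [dt] using this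
    have hv1 : dt ((0, 0, 1) : Z3) (vec s) ≤ dt (pos v2) (vec s) := by
      rw [← hpv]; exact hex _ (pos_mem_path v)
    have hposblk : pos (blk T v) = vec .zp := by
      rw [blk, pos_append, pos_append, pos_rep, pos_rep, hpv]
      simp only [vec]
      ext <;> simp
    generalize vec s = σ at hex hs1 hv0 hv1 ⊢
    rw [hXdef, mem_path_app] at hpe
    rcases hpe with ⟨q, hq, hqe⟩ | h
    · rw [mem_path_app] at hq
      rcases hq with ⟨q', hq', rfl⟩ | hq
      · -- in `l1`
        left
        rw [mem_path_app]
        left
        refine ⟨q', hq', ?_⟩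
        rw [hqe, hposblk]
        simp only [pos]
        abel
      · -- in the block
        right
        have hpq : p = q - (((T : ℤ) + 1, 0, 0) + pos v2) := by
          have : p = q + pos l2 - e := by rw [← hqe]; abel
          rw [this, he]; abel
        rw [blk, mem_path_app] at hq
        rcases hq with ⟨q', hq', rfl⟩ | hq
        · rw [mem_path_app] at hq'
          rcases hq' with ⟨q'', hq'', rfl⟩ | hq'
          · obtain ⟨j, hj, rfl⟩ := mem_path_rep _ _ _ hq''
            have hjT : (j : ℤ) ≤ T + 1 := by exact_mod_cast hj
            rw [pos_rep, hpv] at hpq hqe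
            constructor
            · rw [hpq]
              have hj0 : 0 ≤ (j : ℤ) * σ.1 := mul_nonneg (Int.natCast_nonneg j) hs1
              simp only [dt, vec, Prod.smul_mk, smul_eq_mul, Prod.mk_add_mk, Prod.fst_add,
                Prod.snd_add, Prod.fst_sub, Prod.snd_sub] at hv1 ⊢
              push_cast
              nlinarith
            · refine ⟨(T : ℤ) + 1 - j, by omega, by omega, ?_⟩
              rw [hqe]
              simp only [near, vec, Prod.smul_mk, smul_eq_mul, Prod.mk_add_mk, Prod.fst_add,
                Prod.snd_add]
              push_cast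
              refine ⟨?_, ?_, ?_⟩ <;> rw [abs_le] <;> constructor <;> linarith
          · rw [pos_rep] at hpq hqe
            have hb := hsm.2 q' hq'
            have hq'e := hex q' hq'
            constructor
            · rw [hpq]
              simp only [dt, vec, Prod.smul_mk, smul_eq_mul, Prod.mk_add_mk, Prod.fst_add,
                Prod.snd_add, Prod.fst_sub, Prod.snd_sub] at hq'e ⊢
              push_cast
              nlinarith
            · obtain ⟨b1, b2, b3, b4, b5⟩ := hb
              rw [abs_le] at b3
              push_cast at b1 b2 b3 b4 b5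
              refine ⟨(T : ℤ) + 1 + q'.1, by omega, by omega, ?_⟩
              rw [hqe]
              simp only [near, vec, Prod.smul_mk, smul_eq_mul, Prod.mk_add_mk, Prod.fst_add,
                Prod.snd_add]
              push_cast
              refine ⟨?_, ?_, ?_⟩ <;> rw [abs_le] <;> constructor <;> linarith [b3.1, b3.2]
        · obtain ⟨j, hj, rfl⟩ := mem_path_rep _ _ _ hq
          have hjT : (j : ℤ) ≤ T + 1 := by exact_mod_cast hj
          constructor
          · rw [hpq]
            have hj0 : 0 ≤ ((T : ℤ) + 1 - j) * σ.1 := mul_nonneg (by omega) hs1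
            simp only [dt, vec, Prod.smul_mk, smul_eq_mul, Prod.mk_add_mk, Prod.fst_add,
              Prod.snd_add, Prod.fst_sub, Prod.snd_sub] at hv0 ⊢
            nlinarith
          · refine ⟨(j : ℤ), by omega, by omega, ?_⟩
            rw [hqe]
            simp only [near, vec, Prod.smul_mk, smul_eq_mul, Prod.mk_add_mk, Prod.fst_add,
              Prod.snd_add]
            push_cast
            refine ⟨?_, ?_, ?_⟩ <;> rw [abs_le] <;> constructor <;> linarith
    · left
      rw [mem_path_app]
      right
      simp only [path, List.mem_cons]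
      exact Or.inr h

end KQ

end KN
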