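import Pool.Agent.TH296.KQ.Stm
import Pool.Agent.W606.UB.Mult

/-!
# A polygon is a join at few of its vertices, general lengths
-/

set_option autoImplicit false

namespace KN

namespace KQ

open Finset UB
open scoped Classical

theorem JQ_rot {β lam n m : ℕ} (hn : 1 ≤ n) (hm : 1 ≤ m) {w : List Dir} (h0 : pos w = 0) {s : ℕ}
    (h1 : JQ β lam n m w) (h2 : JQ β lam n m (w.rotate s)) (ha : lam + 1 ≤ s)
    (hb : s + lam ≤ min n m + β - 1) : False := by
  obtain ⟨hl, hp, -⟩ := h1
  obtain ⟨-, -, h3⟩ := h2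
  have hb1 : s + lam ≤ n + β - 1 := by omega
  have hb2 : s + lam ≤ m + β - 1 := by omega
  have hM : pos (w.drop (n + m + 2 * β)) = 0 := by
    rw [← hl, List.drop_length]
    rfl
  have h4 := h3 (n + β - 1 - s) (n + m + 2 * β - s) (by omega) (by omega) (by omega) (by omega)
  rw [pos_rot1 w h0 s _ (by omega), pos_rot1 w h0 s _ (by omega),
    show s + (n + β - 1 - s) = n + β - 1 by omega,
    show s + (n + m + 2 * β - s) = n + m + 2 * β by omega, hp, hM, sub_sub_sub_cancel_right,
    sub_zero] at h4
  simp [dt] at h4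

/-- a set of integers in an interval such that close elements are very close -/
theorem sparse_card (lam D M : ℕ) (hD : 1 ≤ D) (G : Finset ℕ) (hG : ∀ s ∈ G, s < M)
    (hs : ∀ s ∈ G, ∀ t ∈ G, s ≤ t → t < s + D → t ≤ s + lam) :
    G.card ≤ (lam + 1) * (M / D + 1) := by
  have h1 : ∀ s ∈ G, s / D ∈ range (M / D + 1) := by
    intro s hsG
    rw [mem_range]
    have := Nat.div_le_div_right (c := D) (hG s hsG).le
    omega
  have h2 : ∀ b ∈ range (M / D + 1), (G.filter (fun s => s / D = b)).card ≤ lam + 1 := by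
    intro b _
    rcases (G.filter (fun s => s / D = b)).eq_empty_or_nonempty with h | h
    · rw [h]
      simp
    · set F := G.filter (fun s => s / D = b) with hF
      obtain ⟨hm1, hm2⟩ := mem_filter.1 (F.min'_mem h)
      have h3 : F ⊆ Icc (F.min' h) (F.min' h + lam) := by
        intro t ht
        have hmt := F.min'_le t ht
        obtain ⟨ht1, ht2⟩ := mem_filter.1 ht
        rw [mem_Icc]
        refine ⟨hmt, hs _ hm1 t ht1 hmt ?_⟩
        have e1 := Nat.div_add_mod t D
        have e2 := Nat.div_add_mod (F.min' h) D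
        have e3 := Nat.mod_lt t hD
        rw [ht2] at e1
        rw [hm2] at e2
        omega
      refine (card_le_card h3).trans ?_
      rw [Nat.card_Icc]
      omega
  have h3 := card_le_mul_card_image_of_maps_to h1 (lam + 1) h2
  rwa [card_range] at h3

theorem fewQ {β lam n m : ℕ} (hn : 1 ≤ n) (hm : 1 ≤ m) {w : List Dir} (h0 : pos w = 0)
    (hl : w.length = n + m + 2 * β) (hD : lam + 2 ≤ min n m + β) :
    ((range (n + m + 2 * β)).filter (fun s => JQ β lam n m (w.rotate s))).card ≤
      (lam + 1) * ((n + m + 2 * β) / (min n m + β - 1 - lam) + 1) := by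
  refine sparse_card lam _ _ (by omega) _ (fun s hs => mem_range.1 (mem_filter.1 hs).1) ?_
  intro s hs t ht hst hlt
  by_contra hcon
  push Not at hcon
  obtain ⟨hs1, hs2⟩ := mem_filter.1 hs
  obtain ⟨ht1, ht2⟩ := mem_filter.1 ht
  rw [mem_range] at hs1 ht1
  have hp : pos (w.rotate s) = 0 := by
    have := pos_rot1 w h0 s 0 (by omega)
    simpa using this
  refine JQ_rot (s := t - s) hn hm hp hs2 ?_ (by omega) (by omega)
  rw [List.rotate_rotate, show s + (t - s) = t by omega]
  exact ht2

theorem multQ_main (h : S_words) (Rc : List Dir → Prop) (hR : SI Rc) : Q_mult Rc := by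
  intro β lam
  refine ⟨4 * (lam + 1), 2 * lam + 4, ?_⟩
  intro n m hn hm
  set M := n + m + 2 * β with hM
  set D := min n m + β - 1 - lam with hD
  have hD1 : 1 ≤ D := by omega
  have hD2 : min n m ≤ 2 * D := by omega
  have hDM : D ≤ M := by omega
  have K_rot : ∀ {w : List Dir}, w ∈ K Rc M → ∀ k : ℕ, w.rotate k ∈ K Rc M := by
    intro w hw k
    rw [mem_K] at hw ⊢
    have h1 := (h w hw.2.1).2.2 k
    exact ⟨by rw [List.length_rotate]; exact hw.1, h1.1, hR _ _ hw.2.1 h1.1 h1.2 hw.2.2⟩
  set Z := (K Rc M).filter (JQ β lam n m) with hZ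
  have key : ∑ s ∈ range M, Z.card ≤ ∑ w ∈ K Rc M,
      ((range M).filter (fun s => JQ β lam n m (w.rotate s))).card := by
    have e1 : ∑ w ∈ K Rc M, ((range M).filter (fun s => JQ β lam n m (w.rotate s))).card =
        ∑ s ∈ range M, ((K Rc M).filter (fun w => JQ β lam n m (w.rotate s))).card := by
      simp only [card_filter]
      rw [sum_comm]
    rw [e1]
    apply sum_le_sum
    intro s hs
    rw [mem_range] at hs
    refine card_le_card_of_injOn (fun w => w.rotate (M - s)) ?_ ?_
    · intro w hw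
      have hw' := mem_filter.1 (mem_coe.1 hw)
      apply mem_coe.2
      refine mem_filter.2 ⟨K_rot hw'.1 _, ?_⟩
      have hl : w.length = M := (mem_K.1 hw'.1).1
      rw [List.rotate_rotate, show M - s + s = w.length by omega, List.rotate_length]
      exact hw'.2
    · intro w _ v _ hwv
      exact List.rotate_injective (M - s) hwv
  have key2 : ∑ w ∈ K Rc M, ((range M).filter (fun s => JQ β lam n m (w.rotate s))).card ≤
      ∑ _w ∈ K Rc M, (lam + 1) * (M / D + 1) := by
    apply sum_le_sum
    intro w hw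
    have hw' := mem_K.1 hw
    exact fewQ (by omega) (by omega) hw'.2.1.2.1 hw'.1 (by omega)
  have h3 := key.trans key2
  rw [sum_const, sum_const, card_range, smul_eq_mul, smul_eq_mul] at h3
  have ha : (K Rc M).card = a Rc M := rfl
  rw [ha] at h3
  have h4 : D * (M / D + 1) ≤ 2 * M := by
    have := Nat.mul_div_le M D
    calc D * (M / D + 1) = D * (M / D) + D := by ring
      _ ≤ M + M := Nat.add_le_add this hDM
      _ = 2 * M := by ring
  have h5 : M * (D * Z.card) ≤ M * (2 * (lam + 1) * a Rc M) := by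
    calc M * (D * Z.card) = D * (M * Z.card) := by ring
      _ ≤ D * (a Rc M * ((lam + 1) * (M / D + 1))) := Nat.mul_le_mul_left _ h3
      _ = (D * (M / D + 1)) * ((lam + 1) * a Rc M) := by ring
      _ ≤ (2 * M) * ((lam + 1) * a Rc M) := Nat.mul_le_mul_right _ h4
      _ = _ := by ring
  have h6 : D * Z.card ≤ 2 * (lam + 1) * a Rc M := Nat.le_of_mul_le_mul_left h5 (by omega)
  calc min n m * Z.card ≤ (2 * D) * Z.card := Nat.mul_le_mul_right _ hD2
    _ = 2 * (D * Z.card) := by ring
    _ ≤ 2 * (2 * (lam + 1) * a Rc M) := Nat.mul_le_mul_left _ h6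
    _ = 4 * (lam + 1) * a Rc M := by ring

end KQ

end KN
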