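import Pool.Agent.TH296.KQ.Stm
import Pool.Agent.W606.UB.Proj

/-!
# Projections, general classes
(adapted from `Pool.Agent.W606.UB.Proj`)
-/

set_option autoImplicit false

namespace KN

namespace KQ

open Finset Filter Topology UB UB.Pr71
open scoped Classical

noncomputable section

theorem Q_rt (h2 : T_rt) {Pc : List Dir → Prop} (hP : SI Pc) {d f : Dir} (hp : perp d f) {n : ℕ}
    {w : List Dir} (hw : w ∈ K Pc n) : w.map (rt d f) ∈ K Pc n := by
  rw [mem_K] at hw ⊢
  obtain ⟨hl, hs, hu⟩ := hw
  obtain ⟨h3, h4⟩ := h2 d f hp w hs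
  exact ⟨by simpa using hl, h3, hP _ _ hs h3 h4 hu⟩

/-- the sum over the rotated words -/
theorem sumQ_rt (h2 : T_rt) (h3 : T_rtc) {Pc : List Dir → Prop} (hP : SI Pc) {d f : Dir}
    (hp : perp d f) (n : ℕ)
    (F : List Dir → ℝ) : ∑ w ∈ K Pc n, F (w.map (rt d f)) = ∑ w ∈ K Pc n, F w := by
  obtain ⟨⟨d', f', hp', -, -, h4, h5, -, -⟩, -⟩ := h3 d f hp
  refine Finset.sum_nbij' (fun w => w.map (rt d f)) (fun w => w.map (rt d' f')) ?_ ?_ ?_ ?_ ?_
  · intro w hw; exact Q_rt h2 hP hp hw
  · intro w hw; exact Q_rt h2 hP hp' hw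
  · intro w _
    simp only [List.map_map]
    conv_rhs => rw [← List.map_id w]
    apply List.map_congr_left
    intro e _; exact h4 e
  · intro w _
    simp only [List.map_map]
    conv_rhs => rw [← List.map_id w]
    apply List.map_congr_left
    intro e _; exact h5 e
  · intro w _; rfl

theorem projQ_main (h1 : T_LW) (h2 : T_rt) (h3 : T_rtc) (Pc : List Dir → Prop) (hP : SI Pc) :
    Q_proj Pc := by
  intro n hn
  have hpz : perp .yp .zp := by decide
  have hpx : perp .yp .xp := by decide
  have key : ∀ w ∈ K Pc n, (n : ℝ) ^ (2 / 3 : ℝ) ≤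
      (((path w).map Prod.snd).toFinset.card : ℝ) +
      (((path (w.map (rt .yp .zp))).map Prod.snd).toFinset.card : ℝ) +
      (((path (w.map (rt .yp .xp))).map Prod.snd).toFinset.card : ℝ) := by
    intro w hw
    rw [mem_K] at hw
    obtain ⟨hl, hs, -⟩ := hw
    have e1 : ((path w).map Prod.snd).toFinset.card =
        ((path w).toFinset.image (fun p => (p.2.1, p.2.2))).card := by
      congr 1
      ext q
      simp only [List.mem_toFinset, List.mem_map, Finset.mem_image]
    have e2 := proj_rt h3 hpz w (fun p => (p.1, p.2.2)) (by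
      intro p
      simp [Rp, cr, vec])
    have e3 := proj_rt h3 hpx w (fun p => (p.1, p.2.1)) (by
      intro p
      simp [Rp, cr, vec])
    apply real_ineq
    rw [e1, e2, e3]
    have h5 := h1 (path w).toFinset
    have h6 := card_path hs
    rw [hl] at h6
    exact (Nat.pow_le_pow_left h6 2).trans h5
  have h7 := Finset.sum_le_sum key
  rw [Finset.sum_const, Finset.sum_add_distrib, Finset.sum_add_distrib,
    sumQ_rt h2 h3 hP hpz n (fun w => (((path w).map Prod.snd).toFinset.card : ℝ)),
    sumQ_rt h2 h3 hP hpx n (fun w => (((path w).map Prod.snd).toFinset.card : ℝ)), nsmul_eq_mul] at h7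
  have h8 : ((K Pc n).card : ℝ) = (a Pc n : ℝ) := rfl
  rw [h8] at h7
  linarith

end

end KQ

end KN

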