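import Pool.Agent.TH296.KQ.Stm
import Pool.Agent.H246KN.Stubs
import Pool.Agent.H246KN.LAYU

/-!
# Reversed words
-/

set_option autoImplicit false

namespace KN

namespace KQ

open Finset
open scoped Classical

noncomputable section

/-- the oriented knot type -/
def KO (k : List V) (w : List Dir) : Prop := Same (vl w) k

theorem ko_si (k : List V) : SI (KO k) := fun _ _ _ _ h h1 => h.symm.trans h1

theorem kt_si (k : List V) : SI (KT k) := by
  rintro w w' _ _ h (h1 | h1)
  · exact Or.inl (h.symm.trans h1)
  · exact Or.inr (h.symm.trans h1)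

theorem back_word (hrot : S_rot) (hrev : S_rev) (hsi : S_simple) {w : List Dir} (hw : SAP w) :
    SAP (back w) ∧ Same (vl (back w)) (vl w).reverse := by
  obtain ⟨h4, h0, hn⟩ := hw
  -- the vertices
  obtain ⟨d, t, hwt⟩ : ∃ d t, w = d :: t := by
    cases w with
    | nil => simp at h4
    | cons d t => exact ⟨d, t, rfl⟩
  have hpw : path w = 0 :: path t := by
    rw [hwt] at h0 ⊢
    rw [path]
    rw [pos] at h0
    rw [h0]
  have htail : (path w).tail = path t := by rw [hpw]; rfl
  have ht : w.tail = t := by rw [hwt]; rfl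
  have hPt : path t = LAYU.P t ++ [0] := LAYU.path_eq t
  have hback : path (back w) = (path w).reverse := by
    rw [LAYU.path_back, h0]
    simp
  have hb1 : path (back w) = 0 :: ((LAYU.P t).reverse ++ [0]) := by
    rw [hback, hpw, hPt]
    simp
  have hpb : pos (back w) = 0 := by rw [LAYU.pos_back, h0, neg_zero]
  have hlen : (back w).length = w.length := by simp [back]
  have hne : back w ≠ [] := by
    intro h
    rw [h] at hlen
    simp at hlen
    omega
  obtain ⟨d', t', hbt⟩ : ∃ d t, back w = d :: t := by
    cases hb : back w with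
    | nil => exact absurd hb hne
    | cons d t => exact ⟨d, t, rfl⟩
  have htl : path (back w).tail = (LAYU.P t).reverse ++ [0] := by
    have h1 : path (back w) = (pos (back w)) :: path t' := by
      rw [hbt]
      rfl
    rw [hb1] at h1
    rw [hbt]
    exact ((List.cons.inj h1).2).symm
  refine ⟨⟨by rw [hlen]; exact h4, hpb, ?_⟩, ?_⟩
  · rw [hb1, List.tail_cons]
    rw [htail, hPt] at hn
    have h1 := (List.perm_append_comm (l₁ := LAYU.P t) (l₂ := [(0 : Z3)])).nodup_iff.1 hn
    have h2 : ((LAYU.P t).reverse ++ [(0 : Z3)]).Perm (LAYU.P t ++ [0]) :=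
      (List.reverse_perm _).append_right _
    exact h2.nodup_iff.2 hn
  · have hS : Simple (vl w) := hsi w ⟨h4, h0, hn⟩
    have hS' : Simple (vl w).reverse := (hrev (vl w) (vl w)).1.1 hS
    have e1 : (vl w).reverse = [emb 0] ++ ((LAYU.P t).reverse).map emb := by
      unfold vl
      rw [ht, hPt]
      simp
    have e2 : vl (back w) = ((LAYU.P t).reverse).map emb ++ [emb 0] := by
      unfold vl
      rw [htl]
      simp
    rw [e1] at hS' ⊢
    rw [e2]
    exact (hrot _ _ hS').2.symm

theorem back_inj : Function.Injective back := by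
  intro w w' h
  unfold back at h
  have h1 := List.reverse_injective h
  exact (List.map_injective_iff.2 (fun a b hab => by
    have := congrArg neg hab
    simpa using this)) h1

/-- at least half of the closed words of an unoriented knot type have a given orientation -/
theorem half (hrot : S_rot) (hrev : S_rev) (hsi : S_simple) (k : List V) (n : ℕ) :
    a (KT k) n ≤ 2 * a (KO k) n := by
  have h1 : K (KT k) n ⊆ K (KO k) n ∪ K (KO k.reverse) n := by
    intro w hw
    rw [mem_K] at hw
    obtain ⟨h1, h2, h3 | h3⟩ := hw
    · exact mem_union_left _ (mem_K.2 ⟨h1, h2, h3⟩)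
    · exact mem_union_right _ (mem_K.2 ⟨h1, h2, h3⟩)
  have h2 : (K (KO k.reverse) n).card ≤ (K (KO k) n).card := by
    refine card_le_card_of_injOn back ?_ back_inj.injOn
    intro w hw
    have hw' := mem_K.1 (mem_coe.1 hw)
    obtain ⟨h3, h4⟩ := back_word hrot hrev hsi hw'.2.1
    refine mem_coe.2 (mem_K.2 ⟨by simpa [back] using hw'.1, h3, ?_⟩)
    have h5 := (hrev _ _).2 hw'.2.2
    rw [List.reverse_reverse] at h5
    exact h4.trans h5
  have h3 := (card_le_card h1).trans (card_union_le _ _)
  unfold a
  omega

end

end KQ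

end KN
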