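import Pool.Agent.TH296.KQ.Planar
import Pool.Agent.TH296.KQ.Proj
import Pool.Agent.TH296.KQ.Rev

/-!
# Relative positions and extents
-/

set_option autoImplicit false

namespace KN

namespace KQ

open Finset UB UB.Pr71
open scoped Classical

noncomputable section

theorem stp_vec (d : Dir) : Pl.Stp (vec d).2 ∧ Pl.Stp (-(vec d).2) := by
  cases d <;> simp [Pl.Stp, vec]

/-- the steps of the projected walk -/
theorem stp_pos (w : List Dir) (k : ℕ) (hk : k < w.length) :
    Pl.Stp ((pos (w.drop (k + 1))).2 - (pos (w.drop k)).2) ∧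
      Pl.Stp (-(pos (w.drop (k + 1))).2 - -(pos (w.drop k)).2) := by
  have h := pos_drop w k hk
  have h1 : (pos (w.drop k)).2 = (pos (w.drop (k + 1))).2 + (vec (w.getD k .xp)).2 := by
    rw [h]
    rfl
  rw [h1]
  have h2 := stp_vec (w.getD k .xp)
  constructor
  · have e : (pos (w.drop (k + 1))).2 - ((pos (w.drop (k + 1))).2 + (vec (w.getD k .xp)).2) =
        -(vec (w.getD k .xp)).2 := by abel
    rw [e]
    exact h2.2
  · have e : -(pos (w.drop (k + 1))).2 - -((pos (w.drop (k + 1))).2 + (vec (w.getD k .xp)).2) =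
        (vec (w.getD k .xp)).2 := by abel
    rw [e]
    exact h2.1

/-- the determinant of two chords, chords given by ordered indices -/
theorem det_ord (w1 w2 : List Dir) (i i' j j' : ℕ) (hi : i ≤ i') (hi' : i' ≤ w1.length)
    (hj : j ≤ j') (hj' : j' ≤ w2.length) :
    (((pos (w1.drop i')).2.1 - (pos (w1.drop i)).2.1) *
      ((pos (w2.drop j')).2.2 - (pos (w2.drop j)).2.2) -
      ((pos (w1.drop i')).2.2 - (pos (w1.drop i)).2.2) *
      ((pos (w2.drop j')).2.1 - (pos (w2.drop j)).2.1)).natAbs ≤ (Rel w1 w2).card := by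
  have h := Pl.sumset (fun k => (pos (w1.drop (i + k))).2) (fun k => -(pos (w2.drop (j + k))).2)
    (i' - i) (j' - j) (by
      intro k hk
      have := (stp_pos w1 (i + k) (by omega)).1
      simpa [add_assoc] using this) (by
      intro k hk
      have := (stp_pos w2 (j + k) (by omega)).2
      simpa [add_assoc] using this)
  have e1 : i + (i' - i) = i' := by omega
  have e2 : j + (j' - j) = j' := by omega
  simp only [e1, e2, add_zero, Prod.fst_neg, Prod.snd_neg] at h
  have e3 : (((pos (w1.drop i')).2.1 - (pos (w1.drop i)).2.1) *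
      ((pos (w2.drop j')).2.2 - (pos (w2.drop j)).2.2) -
      ((pos (w1.drop i')).2.2 - (pos (w1.drop i)).2.2) *
      ((pos (w2.drop j')).2.1 - (pos (w2.drop j)).2.1)).natAbs =
      (((pos (w1.drop i')).2.1 - (pos (w1.drop i)).2.1) *
      (-(pos (w2.drop j')).2.2 - -(pos (w2.drop j)).2.2) -
      ((pos (w1.drop i')).2.2 - (pos (w1.drop i)).2.2) *
      (-(pos (w2.drop j')).2.1 - -(pos (w2.drop j)).2.1)).natAbs := by
    rw [← Int.natAbs_neg]
    congr 1
    ring
  rw [e3]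
  refine h.trans (card_le_card ?_)
  intro t ht
  rw [mem_image] at ht
  obtain ⟨⟨k, l⟩, hkl, rfl⟩ := ht
  rw [mem_product, mem_range, mem_range] at hkl
  unfold Rel
  rw [mem_image]
  refine ⟨(pos (w1.drop (i + k)), pos (w2.drop (j + l))), ?_, ?_⟩
  · rw [mem_product, List.mem_toFinset, List.mem_toFinset]
    exact ⟨(mem_path_iff _ _).2 ⟨i + k, by omega, rfl⟩,
      (mem_path_iff _ _).2 ⟨j + l, by omega, rfl⟩⟩
  · exact sub_eq_add_neg _ _

/-- the determinant of two chords -/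
theorem det_le (w1 w2 : List Dir) (P P' Q Q' : Z3) (hP : P ∈ path w1) (hP' : P' ∈ path w1)
    (hQ : Q ∈ path w2) (hQ' : Q' ∈ path w2) :
    ((P'.2.1 - P.2.1) * (Q'.2.2 - Q.2.2) - (P'.2.2 - P.2.2) * (Q'.2.1 - Q.2.1)).natAbs ≤
      (Rel w1 w2).card := by
  obtain ⟨i, hi, rfl⟩ := (mem_path_iff _ _).1 hP
  obtain ⟨i', hi', rfl⟩ := (mem_path_iff _ _).1 hP'
  obtain ⟨j, hj, rfl⟩ := (mem_path_iff _ _).1 hQ
  obtain ⟨j', hj', rfl⟩ := (mem_path_iff _ _).1 hQ'
  rcases le_total i i' with h1 | h1 <;> rcases le_total j j' with h2 | h2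
  · exact det_ord w1 w2 i i' j j' h1 hi' h2 hj'
  · have := det_ord w1 w2 i i' j' j h1 hi' h2 hj
    rw [← Int.natAbs_neg]
    refine le_trans (le_of_eq ?_) this
    congr 1
    ring
  · have := det_ord w1 w2 i' i j j' h1 hi h2 hj'
    rw [← Int.natAbs_neg]
    refine le_trans (le_of_eq ?_) this
    congr 1
    ring
  · have := det_ord w1 w2 i' i j' j h1 hi h2 hj
    refine le_trans (le_of_eq ?_) this
    congr 1
    ring

/-- the extent is attained -/
theorem wid_att (w : List Dir) : ∃ P ∈ path w, ∃ P' ∈ path w,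
    wid w = (P'.2.2 - P.2.2).natAbs := by
  have hne : ((path w).toFinset ×ˢ (path w).toFinset).Nonempty := by
    refine ⟨(pos w, pos w), ?_⟩
    rw [mem_product, List.mem_toFinset]
    exact ⟨pos_mem_path w, pos_mem_path w⟩
  obtain ⟨⟨P, P'⟩, h1, h2⟩ := exists_mem_eq_sup _ hne
    (fun x : Z3 × Z3 => (x.1.2.2 - x.2.2.2).natAbs)
  rw [mem_product, List.mem_toFinset, List.mem_toFinset] at h1
  exact ⟨P', h1.2, P, h1.1, h2⟩

theorem le_wid (w : List Dir) (P P' : Z3) (hP : P ∈ path w) (hP' : P' ∈ path w) :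
    (P.2.2 - P'.2.2).natAbs ≤ wid w := by
  refine Finset.le_sup (f := fun x : Z3 × Z3 => (x.1.2.2 - x.2.2.2).natAbs) (b := (P, P')) ?_
  rw [mem_product, List.mem_toFinset, List.mem_toFinset]
  exact ⟨hP, hP'⟩

theorem wid_back {w : List Dir} (h0 : pos w = 0) : wid (back w) = wid w := by
  have h1 : path (back w) = (path w).reverse := by
    rw [LAYU.path_back, h0]
    simp
  unfold wid
  rw [h1, List.toFinset_reverse]

/-- two chords, the second one also turned by a right angle -/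
theorem two_det (a b c d : ℤ) : (b * d).natAbs ≤ (a * d - b * c).natAbs +
    (a * c + b * d).natAbs := by
  have h1 : (a * d - b * c) ^ 2 + (a * c + b * d) ^ 2 = (a ^ 2 + b ^ 2) * (c ^ 2 + d ^ 2) := by
    ring
  have h2 : (b * d) ^ 2 ≤ (|a * d - b * c| + |a * c + b * d|) ^ 2 := by
    have h3 : (|a * d - b * c| + |a * c + b * d|) ^ 2 = (a * d - b * c) ^ 2 +
        (a * c + b * d) ^ 2 + 2 * (|a * d - b * c| * |a * c + b * d|) := by
      rw [add_sq, sq_abs, sq_abs]
      ring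
    have h4 : 0 ≤ |a * d - b * c| * |a * c + b * d| := by positivity
    have h5 : 0 ≤ (a * c) ^ 2 := sq_nonneg _
    have h6 : 0 ≤ (a * d) ^ 2 := sq_nonneg _
    have h7 : 0 ≤ (b * c) ^ 2 := sq_nonneg _
    nlinarith
  have h3 : |b * d| ≤ |a * d - b * c| + |a * c + b * d| := by
    have := sq_le_sq.1 h2
    rwa [abs_of_nonneg (show 0 ≤ |a * d - b * c| + |a * c + b * d| by positivity)] at this
  zify
  exact h3

/-- the extents of two polygons and the number of relative positions -/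
theorem wid_mul (h3 : T_rtc) (w1 w2 : List Dir) :
    wid w1 * wid w2 ≤ (Rel w1 w2).card + (Rel w1 (w2.map (rt .xp .yp))).card := by
  obtain ⟨P, hP, P', hP', e1⟩ := wid_att w1
  obtain ⟨Q, hQ, Q', hQ', e2⟩ := wid_att w2
  have hpath : path (w2.map (rt .xp .yp)) = (path w2).map (Rp .xp .yp) :=
    ((h3 .xp .yp (by decide)).2.2.1 w2).2
  have hR : ∀ q : Z3, Rp .xp .yp q = (q.1, q.2.2, -q.2.1) := by
    intro q
    simp [Rp, cr, vec]
  have d1 := det_le w1 w2 P P' Q Q' hP hP' hQ hQ'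
  have d2 := det_le w1 (w2.map (rt .xp .yp)) P P' (Rp .xp .yp Q) (Rp .xp .yp Q') hP hP'
    (by rw [hpath]; exact List.mem_map_of_mem hQ) (by rw [hpath]; exact List.mem_map_of_mem hQ')
  rw [hR, hR] at d2
  simp only at d2
  rw [e1, e2, ← Int.natAbs_mul]
  refine (two_det (P'.2.1 - P.2.1) (P'.2.2 - P.2.2) (Q'.2.1 - Q.2.1) (Q'.2.2 - Q.2.2)).trans ?_
  refine add_le_add d1 (le_trans (le_of_eq ?_) d2)
  rw [← Int.natAbs_neg]
  congr 1
  ring

/-- summation over the classes -/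
theorem sum_wid (h2 : T_rt) (h3 : T_rtc) (Pc Qc : List Dir → Prop) (hQ : SI Qc) (n m : ℕ) :
    (∑ w1 ∈ K Pc n, (wid w1 : ℝ)) * ∑ w2 ∈ K Qc m, (wid w2 : ℝ) ≤
      2 * ∑ w1 ∈ K Pc n, ∑ w2 ∈ K Qc m, ((Rel w1 w2).card : ℝ) := by
  rw [Finset.sum_mul_sum, Finset.mul_sum]
  refine Finset.sum_le_sum fun w1 _ => ?_
  have h4 := sumQ_rt h2 h3 hQ (show perp .xp .yp by decide) m
    (fun w => ((Rel w1 w).card : ℝ))
  calc ∑ w2 ∈ K Qc m, (wid w1 : ℝ) * (wid w2 : ℝ)
      ≤ ∑ w2 ∈ K Qc m, (((Rel w1 w2).card : ℝ) + ((Rel w1 (w2.map (rt .xp .yp))).card : ℝ)) := by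
        refine Finset.sum_le_sum fun w2 _ => ?_
        exact_mod_cast wid_mul h3 w1 w2
    _ = 2 * ∑ w2 ∈ K Qc m, ((Rel w1 w2).card : ℝ) := by
        rw [Finset.sum_add_distrib, h4]
        ring

theorem zero_mem_path (w : List Dir) : (0 : Z3) ∈ path w := by
  rw [mem_path_iff]
  exact ⟨w.length, le_rfl, by simp [pos]⟩

theorem proj_le_left (w1 w2 : List Dir) :
    ((path w1).map Prod.snd).toFinset.card ≤ (Rel w1 w2).card := by
  refine card_le_card ?_
  intro t ht
  rw [List.mem_toFinset, List.mem_map] at ht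
  obtain ⟨p, hp, rfl⟩ := ht
  unfold Rel
  rw [mem_image]
  refine ⟨(p, 0), ?_, by simp⟩
  rw [mem_product, List.mem_toFinset, List.mem_toFinset]
  exact ⟨hp, zero_mem_path w2⟩

theorem proj_le_right (w1 w2 : List Dir) :
    ((path w2).map Prod.snd).toFinset.card ≤ (Rel w1 w2).card := by
  refine card_le_card_of_injOn (fun t => -t) ?_ neg_injective.injOn
  intro t ht
  rw [mem_coe, List.mem_toFinset, List.mem_map] at ht
  obtain ⟨p, hp, rfl⟩ := ht
  rw [mem_coe]
  unfold Rel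
  rw [mem_image]
  refine ⟨(0, p), ?_, by simp⟩
  rw [mem_product, List.mem_toFinset, List.mem_toFinset]
  exact ⟨zero_mem_path w1, hp⟩

end

end KQ

end KN
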