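import Pool.Agent.TH296.KQ.Join
import Pool.Agent.TH296.KQ.DockS
import Pool.Agent.TH296.KQ.Dock
import Pool.Agent.TH296.KQ.Glue
import Pool.Agent.TH296.KQ.Count
import Pool.Agent.TH296.KQ.Mult
import Pool.Agent.TH296.KQ.Proj
import Pool.Agent.TH296.KQ.Width
import Pool.Agent.W606.UB.Fin
import Pool.Agent.H246K2.TOWU

/-!
# Joining polygons of given classes: all parts
-/

set_option autoImplicit false

namespace KN

namespace KQ

open Finset Filter Topology UB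
open scoped Classical

/-- every polygon has a representative that lies to the left of one of its edges `zp` -/
theorem left_rep (w : List Dir) (hw : SAP w) : ∃ m1 m2 : List Dir, SAP (m1 ++ .zp :: m2) ∧
    (∀ p ∈ path (m1 ++ .zp :: m2), p.1 ≤ (pos m2).1) ∧ Same (vl w) (vl (m1 ++ .zp :: m2)) := by
  have h1 : ∀ u, SAP u → (Same (vl w) (vl u) ↔ Same (vl w) (vl (u.map rx))) := fun u hu =>
    ⟨fun h => h.trans (c_words u hu).1.2, fun h => h.trans (c_words u hu).1.2.symm⟩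
  have h3 := S_quartR_proof (fun u => Same (vl w) (vl u)) h1 w.length
  have h4 : 0 < a (fun u => Same (vl w) (vl u)) w.length := by
    unfold a
    rw [Finset.card_pos]
    exact ⟨w, mem_K.2 ⟨rfl, hw, Same.refl _⟩⟩
  have h5 : 0 < ((K (fun u => Same (vl w) (vl u)) w.length).filter (fun w => ∃ l1 l2 : List Dir,
      w = l1 ++ .zp :: l2 ∧ ∀ p ∈ path w, p.1 ≤ (pos l2).1)).card := by
    rcases Nat.eq_zero_or_pos ((K (fun u => Same (vl w) (vl u)) w.length).filter (fun w =>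
      ∃ l1 l2 : List Dir, w = l1 ++ .zp :: l2 ∧ ∀ p ∈ path w, p.1 ≤ (pos l2).1)).card with h | h
    · rw [h] at h3
      omega
    · exact h
  obtain ⟨u, hu⟩ := Finset.card_pos.1 h5
  rw [Finset.mem_filter, mem_K] at hu
  obtain ⟨⟨_, hu1, hu2⟩, m1, m2, rfl, hv⟩ := hu
  exact ⟨m1, m2, hu1, hv, hu2⟩

theorem q_T1 : Q_T1 := by
  intro T L l1 l2 v hS hv hU
  obtain ⟨m1, m2, hm, hx, hs⟩ := left_rep _ hS.1
  have hB : BgL L m1 m2 := K2TOWU.bgL L hm hx
  obtain ⟨h1, h2⟩ := d_master T L l1 l2 m1 m2 v hS hv hB hs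
  refine ⟨h1, (h2.trans ?_).trans hs.symm⟩
  exact c_glue1 m1 v m2 ⟨hm, hx, hv.1, fun p hp => (hv.2 p hp).1⟩ (GEN.u_same hU)

theorem q_dockS (Pc : List Dir → Prop) (hP : SI Pc) : Q_dockS Pc :=
  dockSQ_main q_T1 c_words Pc hP

theorem q_dock : Q_dock := dockQ_main f_block f_step q_dockS T_rt_proof T_rtc_proof c_words

theorem q_join (Pc Qc Rc : List Dir → Prop) (hP : SI Pc) (hQ : SI Qc) (hR : SI Rc)
    (hc : CS Pc Qc Rc) : Q_join Pc Qc Rc :=
  joinQ_main sap_main f_mono RealW177.real_main f_sub T_hair_proof S_simple_proof T_rt_proof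
    T_rtc_proof c_words S_glueSAP_proof Pc Qc Rc hP hQ hR hc

theorem q_glue (Pc Qc Rc : List Dir → Prop) (hP : SI Pc) (hQ : SI Qc) (hR : SI Rc)
    (hc : CS Pc Qc Rc) : Q_glue Pc Qc Rc :=
  glueQ_main Pc Qc Rc hP hQ q_dock f_LLd slide_main geo_main (q_join Pc Qc Rc hP hQ hR hc)
    sap_main T_rt_proof T_rtc_proof c_words

theorem mw_mul (Pc : List Dir → Prop) (n : ℕ) :
    mw Pc n * a Pc n = ∑ w ∈ K Pc n, (wid w : ℝ) := by
  unfold mw
  by_cases h : (a Pc n : ℝ) = 0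
  · have h1 : K Pc n = ∅ := by
      have h2 : a Pc n = 0 := by exact_mod_cast h
      unfold a at h2
      exact Finset.card_eq_zero.1 h2
    rw [h, h1]
    simp
  · rw [div_mul_cancel₀ _ h]

theorem mw_nonneg (Pc : List Dir → Prop) (n : ℕ) : 0 ≤ mw Pc n := by
  unfold mw
  positivity

theorem aux1 {x y b S Z : ℝ} (h1 : x * y ≤ 3 * S) (h2 : S * b ≤ Z) (hb : 0 ≤ b) :
    x * (y * b) ≤ 3 * Z := by
  calc x * (y * b) = (x * y) * b := by ring
    _ ≤ (3 * S) * b := mul_le_mul_of_nonneg_right h1 hb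
    _ = 3 * (S * b) := by ring
    _ ≤ 3 * Z := by linarith

theorem aux2 {x y z b e Z : ℝ} (h1 : x * (y * b) ≤ 3 * Z) (h2 : z * y * (e * b) ≤ 2 * Z)
    (hZ : 0 ≤ Z) : (x + z * e) * (y * b) ≤ 6 * Z := by
  calc (x + z * e) * (y * b) = x * (y * b) + z * y * (e * b) := by ring
    _ ≤ 3 * Z + 2 * Z := add_le_add h1 h2
    _ ≤ 6 * Z := by linarith

/-- the number of pairs with a relative position -/
theorem rel_sum (Pc Qc : List Dir → Prop) (hP : SI Pc) (hQ : SI Qc) (n m : ℕ) (hn : 4 ≤ n)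
    (hm : 4 ≤ m) :
    (((max n m : ℕ) : ℝ) ^ (2 / 3 : ℝ) + mw Pc n * mw Qc m) * (a Pc n * a Qc m) ≤
      6 * ∑ w1 ∈ K Pc n, ∑ w2 ∈ K Qc m, ((Rel w1 w2).card : ℝ) := by
  set Z : ℝ := ∑ w1 ∈ K Pc n, ∑ w2 ∈ K Qc m, ((Rel w1 w2).card : ℝ) with hZ
  have e1 := projQ_main T_LW_proof T_rt_proof T_rtc_proof Pc hP n hn
  have e2 := projQ_main T_LW_proof T_rt_proof T_rtc_proof Qc hQ m hm
  have e3 := sum_wid T_rt_proof T_rtc_proof Pc Qc hQ n m
  rw [← hZ, ← mw_mul, ← mw_mul] at e3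
  have f1 : (∑ w ∈ K Pc n, (((path w).map Prod.snd).toFinset.card : ℝ)) * a Qc m ≤ Z := by
    rw [hZ, Finset.sum_mul]
    refine Finset.sum_le_sum fun w1 _ => ?_
    have : (((path w1).map Prod.snd).toFinset.card : ℝ) * a Qc m =
        ∑ w2 ∈ K Qc m, (((path w1).map Prod.snd).toFinset.card : ℝ) := by
      rw [Finset.sum_const, nsmul_eq_mul, mul_comm]
      rfl
    rw [this]
    refine Finset.sum_le_sum fun w2 _ => ?_
    exact_mod_cast proj_le_left w1 w2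
  have f2 : (∑ w ∈ K Qc m, (((path w).map Prod.snd).toFinset.card : ℝ)) * a Pc n ≤ Z := by
    rw [hZ, Finset.sum_comm, Finset.sum_mul]
    refine Finset.sum_le_sum fun w2 _ => ?_
    have : (((path w2).map Prod.snd).toFinset.card : ℝ) * a Pc n =
        ∑ w1 ∈ K Pc n, (((path w2).map Prod.snd).toFinset.card : ℝ) := by
      rw [Finset.sum_const, nsmul_eq_mul, mul_comm]
      rfl
    rw [this]
    refine Finset.sum_le_sum fun w1 _ => ?_
    exact_mod_cast proj_le_right w1 w2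
  have hA0 : (0 : ℝ) ≤ a Pc n := Nat.cast_nonneg _
  have hB0 : (0 : ℝ) ≤ a Qc m := Nat.cast_nonneg _
  have g1 : (n : ℝ) ^ (2 / 3 : ℝ) * (a Pc n * a Qc m) ≤ 3 * Z := aux1 e1 f1 hB0
  have g2 : (m : ℝ) ^ (2 / 3 : ℝ) * (a Pc n * a Qc m) ≤ 3 * Z := by
    rw [mul_comm (a Pc n : ℝ)]
    exact aux1 e2 f2 hA0
  have g3 : ((max n m : ℕ) : ℝ) ^ (2 / 3 : ℝ) * (a Pc n * a Qc m) ≤ 3 * Z := by
    rcases le_total n m with h | h
    · rw [max_eq_right h]
      exact g2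
    · rw [max_eq_left h]
      exact g1
  have hZ0 : 0 ≤ Z := Finset.sum_nonneg fun w1 _ => Finset.sum_nonneg fun w2 _ =>
    Nat.cast_nonneg _
  exact aux2 g3 e3 hZ0

/-- the main inequality for closed words -/
theorem mainA (Pc Qc Rc : List Dir → Prop) (hP : SI Pc) (hQ : SI Qc) (hR : SI Rc)
    (hc : CS Pc Qc Rc) : ∃ (β N₀ : ℕ) (C : ℝ), 0 < C ∧ ∀ n m : ℕ, N₀ ≤ n → N₀ ≤ m →
      (((max n m : ℕ) : ℝ) ^ (2 / 3 : ℝ) + mw Pc n * mw Qc m) * (min n m : ℕ) *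
        (a Pc n * a Qc m) ≤ C * (n * m * a Rc (n + m + 2 * β)) := by
  obtain ⟨β, lam, K₀, hG⟩ := q_glue Pc Qc Rc hP hQ hR hc
  obtain ⟨C, hC⟩ := countQ_main Pc Qc Rc β lam K₀ hG
  obtain ⟨C', N₀, hC'⟩ := multQ_main c_words Rc hR β lam
  refine ⟨β, max (max lam N₀) 4, 6 * ((C : ℝ) + 1) * ((C' : ℝ) + 1), by positivity, ?_⟩
  intro n m hn hm
  have e1 := rel_sum Pc Qc hP hQ n m (by omega) (by omega)
  have e2 : (∑ w1 ∈ K Pc n, ∑ w2 ∈ K Qc m, ((Rel w1 w2).card : ℝ)) ≤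
      C * ((n : ℝ) * m) * ((K Rc (n + m + 2 * β)).filter (JQ β lam n m)).card := by
    exact_mod_cast hC n m (by omega) (by omega)
  have e3 : ((min n m : ℕ) : ℝ) * ((K Rc (n + m + 2 * β)).filter (JQ β lam n m)).card ≤
      C' * (a Rc (n + m + 2 * β) : ℝ) := by
    exact_mod_cast hC' n m (by omega) (by omega)
  set Z : ℝ := (((K Rc (n + m + 2 * β)).filter (JQ β lam n m)).card : ℝ) with hZ
  set D : ℝ := (a Rc (n + m + 2 * β) : ℝ) with hD
  set μ : ℝ := ((min n m : ℕ) : ℝ) with hμ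
  set F : ℝ := ((max n m : ℕ) : ℝ) ^ (2 / 3 : ℝ) + mw Pc n * mw Qc m with hF
  have hZ0 : 0 ≤ Z := by positivity
  have hD0 : 0 ≤ D := by positivity
  have hμ0 : 0 ≤ μ := by positivity
  have hn0 : (0 : ℝ) ≤ n := Nat.cast_nonneg n
  have hm0 : (0 : ℝ) ≤ m := Nat.cast_nonneg m
  have hCr : (0 : ℝ) ≤ C := by positivity
  have hCr' : (0 : ℝ) ≤ C' := by positivity
  have hnm : 0 ≤ (n : ℝ) * m := by positivity
  calc F * μ * (a Pc n * a Qc m) = μ * (F * (a Pc n * a Qc m)) := by ring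
    _ ≤ μ * (6 * (C * ((n : ℝ) * m) * Z)) := by
      refine mul_le_mul_of_nonneg_left (e1.trans ?_) hμ0
      exact mul_le_mul_of_nonneg_left e2 (by norm_num)
    _ = 6 * C * ((n : ℝ) * m) * (μ * Z) := by ring
    _ ≤ 6 * C * ((n : ℝ) * m) * (C' * D) := mul_le_mul_of_nonneg_left e3 (by positivity)
    _ = 6 * (C * C') * ((n : ℝ) * m * D) := by ring
    _ ≤ 6 * ((C + 1) * (C' + 1)) * ((n : ℝ) * m * D) := by
      refine mul_le_mul_of_nonneg_right ?_ (by positivity)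
      nlinarith
    _ = _ := by ring

/-- the main inequality for polygons -/
theorem mainP (Pc Qc Rc : List Dir → Prop) (hP : SI Pc) (hQ : SI Qc) (hR : SI Rc)
    (hc : CS Pc Qc Rc) : ∃ (β N₀ : ℕ) (c : ℝ), 0 < c ∧ ∀ n m : ℕ, N₀ ≤ n → N₀ ≤ m →
      c * (((max n m : ℕ) : ℝ) ^ (2 / 3 : ℝ) + mw Pc n * mw Qc m) *
        ((min n m : ℕ) / ((n : ℝ) + m)) * (pq Pc n * pq Qc m) ≤ pq Rc (n + m + 2 * β) := by
  obtain ⟨β, N₀, C, hC, h⟩ := mainA Pc Qc Rc hP hQ hR hc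
  refine ⟨β, max N₀ (2 * β + 1), 1 / C, by positivity, ?_⟩
  intro n m hn hm
  have h1 := h n m (le_trans (le_max_left _ _) hn) (le_trans (le_max_left _ _) hm)
  have hβn : 2 * β + 1 ≤ n := le_trans (le_max_right _ _) hn
  have hβm : 2 * β + 1 ≤ m := le_trans (le_max_right _ _) hm
  have hn0 : (0 : ℝ) < n := by exact_mod_cast (by omega : 0 < n)
  have hm0 : (0 : ℝ) < m := by exact_mod_cast (by omega : 0 < m)
  have hβ : (2 : ℝ) * β ≤ n := by exact_mod_cast (by omega : 2 * β ≤ n)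
  unfold pq
  set F : ℝ := ((max n m : ℕ) : ℝ) ^ (2 / 3 : ℝ) + mw Pc n * mw Qc m with hF
  set μ : ℝ := ((min n m : ℕ) : ℝ) with hμ
  push_cast at h1 ⊢
  set A : ℝ := (a Pc n : ℝ) with hA
  set B : ℝ := (a Qc m : ℝ) with hB
  set D : ℝ := (a Rc (n + m + 2 * β) : ℝ) with hD
  have hA0 : 0 ≤ A := by positivity
  have hB0 : 0 ≤ B := by positivity
  have hD0 : 0 ≤ D := by positivity
  have hs : (0 : ℝ) < n + m + 2 * β := by positivity
  rw [le_div_iff₀ (by positivity)]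
  have e1 : 1 / C * F * (μ / ((n : ℝ) + m)) *
      (A / (2 * n) * (B / (2 * m))) * (2 * (n + m + 2 * β)) =
      (F * μ * (A * B)) * ((n + m + 2 * β) / (2 * C * n * m * (n + m))) := by
    field_simp
  rw [e1]
  calc (F * μ * (A * B)) * ((n + m + 2 * β) / (2 * C * n * m * (n + m))) ≤
      (C * (n * m * D)) * ((n + m + 2 * β) / (2 * C * n * m * (n + m))) :=
        mul_le_mul_of_nonneg_right h1 (by positivity)
    _ = D * ((n + m + 2 * β) / (2 * (n + m))) := by field_simp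
    _ ≤ D * 1 := by
      refine mul_le_mul_of_nonneg_left ?_ hD0
      rw [div_le_one (by positivity)]
      linarith
    _ = D := mul_one D

end KQ

end KN
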