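import Pool.Agent.TH296.KQ.Stm
import Pool.Agent.W606.UB.Join

/-!
# The join of two separated polygons, general classes
(adapted from `Pool.Agent.W606.UB.Join`)
-/

set_option autoImplicit false

namespace KN

namespace KQ

open Finset Filter Topology UB UB.Join386

theorem joinQ_main (hs : P_sap) (hm : P_mono) (hr : P_real) (hsub : P_sub) (hh : T_hair)
    (hsi : S_simple) (hrt : T_rt) (hrtc : T_rtc) (hw : S_words) (hg : S_glueSAP)
    (Pc Qc Rc : List Dir → Prop) (hP : SI Pc) (hQ : SI Qc) (hR : SI Rc) (hc : CS Pc Qc Rc) :
    Q_join Pc Qc Rc := by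
  intro l1 v hx hU1 hU2
  -- basic facts
  have hv : pos v = (0, 0, 1) := by
    have h := hx.right.2.1
    simp only [pos, vec] at h
    have : pos v = -((0, 0, -1) : Z3) := eq_neg_of_add_eq_zero_left h
    rw [this]; rfl
  obtain ⟨B1, hB1⟩ := bound (path (l1 ++ [.zp]))
  obtain ⟨B2, hB2⟩ := bound (path v)
  set T : ℕ := B1 + B2 with hT
  -- the left polygon
  obtain ⟨L1, L2, L3⟩ := hh T l1 [] hx.left (by
    intro j hj _
    have := sep_free hx hv j hj
    simp only [pos, zero_add]
    exact ⟨this.1, this.2.1⟩)
  -- the right polygon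
  have hperp : perp .xm .zm := by decide
  have hpath : ∀ w : List Dir, path (w.map (rt .xm .zm)) = (path w).map (Rp .xm .zm) := fun w =>
    ((hrtc .xm .zm hperp).2.2.1 w).2
  have hpos : ∀ w : List Dir, pos (w.map (rt .xm .zm)) = Rp .xm .zm (pos w) := fun w =>
    ((hrtc .xm .zm hperp).2.2.1 w).1
  obtain ⟨M1, M2⟩ := hrt .xm .zm hperp (.zm :: v) hx.right
  have e1 : (Dir.zm :: v).map (rt .xm .zm) = [] ++ .zp :: (v.map (rt .xm .zm)) := rfl
  have hmem : ∀ q : Z3, Rp .xm .zm q ∈ path ((Dir.zm :: v).map (rt .xm .zm)) →
      q ≠ 0 → q ∈ path v := by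
    intro q hq hq0
    rw [hpath] at hq
    obtain ⟨q', hq', he⟩ := List.mem_map.1 hq
    have : q' = q := by
      rw [Rp_eq, Rp_eq] at he
      obtain ⟨a, b, c⟩ := q
      obtain ⟨a', b', c'⟩ := q'
      simp only [Prod.mk.injEq] at he ⊢
      omega
    subst this
    simp only [path] at hq'
    rcases List.mem_cons.1 hq' with h | h
    · exfalso
      apply hq0
      rw [h]
      exact hx.right.2.1
    · exact h
  obtain ⟨N1, N2, -⟩ := hh T [] (v.map (rt .xm .zm)) (by rw [← e1]; exact M1) (by
    intro j hj _
    have h := sep_free hx hv j hj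
    rw [← e1, hpos, hv, Rp_eq]
    constructor
    · intro hmm
      refine h.2.2.2 (hmem (-(j : ℤ), 0, 1) ?_ ?_)
      · rw [Rp_eq]
        simpa using hmm
      · intro h0
        simp [Prod.ext_iff] at h0
    · intro hmm
      refine h.2.2.1 (hmem (-(j : ℤ), 0, 0) ?_ ?_)
      · rw [Rp_eq]
        simpa using hmm
      · intro h0
        simp [Prod.ext_iff] at h0
        omega)
  obtain ⟨O1, O2⟩ := hrt .xm .zm hperp _ N1
  have e2 : (hairL T [] ++ .zp :: hairR T (v.map (rt .xm .zm))).map (rt .xm .zm) =
      List.replicate T .xp ++ .zm :: (List.replicate T .xm ++ v) := by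
    unfold hairL hairR
    simp only [List.nil_append, List.map_append, List.map_replicate, List.map_cons]
    rw [map_invol]
    rfl
  rw [e2] at O1 O2
  obtain ⟨Q1, Q2⟩ := (hw _ O1).2.2 T
  have e3 : (List.replicate T Dir.xp ++ Dir.zm :: (List.replicate T Dir.xm ++ v)).rotate T =
      Dir.zm :: (List.replicate T Dir.xm ++ v ++ List.replicate T Dir.xp) := by
    have := List.rotate_append_length_eq (List.replicate T Dir.xp)
      (Dir.zm :: (List.replicate T Dir.xm ++ v))
    rw [List.length_replicate] at this
    rw [this]
    simp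
  rw [e3] at Q1 Q2
  -- facing
  have hF : Facing (hairL T l1) (List.replicate T .xm ++ v ++ List.replicate T .xp)
      (hairR T []) := by
    refine ⟨L1, ?_, Q1, ?_⟩
    · have hpR : (pos (hairR T [])).1 = T := by
        unfold hairR
        rw [List.append_nil, pos_rep_xp]
      rw [hpR]
      intro p hp
      rcases L3 p hp with h | ⟨j, _, hj2, h | h⟩
      · have h1 := hB1 p h
        have h2 := le_abs_self p.1
        have h3 : (B1 : ℤ) ≤ T := by rw [hT]; push_cast; linarith [Int.natCast_nonneg B2]
        linarith
      · rw [h]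
        simp only [pos, zero_add]
        exact_mod_cast hj2
      · rw [h]
        simp only [pos, zero_add]
        exact_mod_cast hj2
    · intro p hp
      rcases mem_app hp with h | ⟨q, hq, rfl⟩
      · exact (path_rep_xp T h).1
      · rw [pos_rep_xp]
        rcases mem_app hq with h | ⟨q', hq', rfl⟩
        · have h1 := hB2 q h
          have h2 := neg_abs_le q.1
          have h3 : (B2 : ℤ) ≤ T := by rw [hT]; push_cast; linarith [Int.natCast_nonneg B1]
          simp only [Prod.fst_add]
          linarith
        · have h1 := (path_rep_xm T hq').1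
          rw [hv]
          simp only [Prod.fst_add]
          linarith
  -- unknotted
  have hUL : Pc (hairL T l1 ++ .zp :: hairR T []) := hP _ _ hx.left L1 L2 hU1
  have hUR : Qc (.zm :: (List.replicate T .xm ++ v ++ List.replicate T .xp)) := by
    refine hQ _ _ hx.right Q1 ?_ hU2
    exact (M2.trans (by rw [e1]; exact N2)).trans (O2.trans Q2)
  have hJ := hc _ _ _ hF hUL hUR
  have hsh := shift hs hm hr hsub hsi l1 v hx (2 * T)
  have e4 : join (hairL (2 * T) l1) v (hairR (2 * T) []) =
      join (hairL T l1) (List.replicate T .xm ++ v ++ List.replicate T .xp) (hairR T []) := by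
    unfold join hairL hairR
    have a1 : List.replicate (2 * T) Dir.xm = List.replicate T .xm ++ List.replicate T .xm := by
      rw [List.replicate_append_replicate, two_mul]
    have a2 : List.replicate (2 * T) Dir.xp = List.replicate T .xp ++ List.replicate T .xp := by
      rw [List.replicate_append_replicate, two_mul]
    have a3 : ∀ d : Dir, ∀ l : List Dir, List.replicate T d ++ d :: l =
        d :: (List.replicate T d ++ l) := by
      intro d l
      have := List.replicate_append_replicate (n := T) (m := 1) (a := d)
      have h2 : List.replicate T d ++ [d] = d :: List.replicate T d := by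
        rw [← List.replicate_succ, ← List.replicate_succ']
      calc List.replicate T d ++ d :: l = (List.replicate T d ++ [d]) ++ l := by simp
        _ = (d :: List.replicate T d) ++ l := by rw [h2]
        _ = _ := by simp
    rw [a1, a2]
    simp only [List.append_nil, List.append_assoc, List.cons_append, a3]
  rw [e4] at hsh
  exact hR _ _ (hg _ _ _ hF) (hs l1 v hx) hsh.symm hJ

end KQ

end KN
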