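import Pool.Agent.TH296.KQ.Fin
import Pool.Agent.TH296.KQ.Ana

/-!
# Connected sums: the main theorems
-/

set_option autoImplicit false

namespace KN

namespace KQ

open Finset Filter Topology UB
open scoped Classical

noncomputable section

/-- `s` is a connected sum of the (oriented) knots `k` and `l`: it has the knot type of the join
of two facing lattice polygons of the types `k` and `l` -/
def IsSum (k l s : List V) : Prop := ∃ l1 v l2 : List Dir, Facing l1 v l2 ∧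
  Same (vl (l1 ++ .zp :: l2)) k ∧ Same (vl (.zm :: v)) l ∧ Same s (vl (join l1 v l2))

theorem isSum_unique {k l s s' : List V} (h : IsSum k l s) (h' : IsSum k l s') : Same s s' := by
  obtain ⟨l1, v, l2, hF, hk, hl, hs⟩ := h
  obtain ⟨m1, v', m2, hF', hk', hl', hs'⟩ := h'
  have h1 : Same (vl (l1 ++ .zp :: l2)) (vl (m1 ++ .zp :: m2)) := hk.trans hk'.symm
  have h2 : Same (vl (.zm :: v)) (vl (.zm :: v')) := hl.trans hl'.symm
  have hFm : Facing l1 v' l2 := ⟨hF.1, hF.2.1, hF'.2.2.1, hF'.2.2.2⟩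
  have h3 := K2TOWU.join_same hF hFm h2
  have h4 := d_wconL v'.length l1 l2 m1 m2 v' (K2TOWU.bgL _ hF.1 hF.2.1)
    (K2TOWU.bgL _ hF'.1 hF'.2.1) (K2TOWU.smR hF'.2.2.1 hF'.2.2.2) h1
  exact hs.trans ((h3.trans h4).trans hs'.symm)

theorem isSum_exists {k l : List V} (hk : ∃ w, SAP w ∧ Same (vl w) k)
    (hl : ∃ w, SAP w ∧ Same (vl w) l) : ∃ w, SAP w ∧ IsSum k l (vl w) := by
  obtain ⟨w, hw, h⟩ := hk
  obtain ⟨l1, l2, h1, h2, h3⟩ := left_rep w hw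
  obtain ⟨L, v, hv, hvk⟩ := T_vex_proof l hl
  have hF : Facing l1 v l2 := ⟨h1, h2, hv.1, fun p hp => (hv.2 p hp).1⟩
  exact ⟨join l1 v l2, S_glueSAP_proof l1 v l2 hF, l1, v, l2, hF, h3.symm.trans h, hvk,
    Same.refl _⟩

theorem cs_of_isSum {k l s : List V} (h : IsSum k l s) : CS (KO k) (KO l) (KO s) :=
  fun l1 v l2 hF hk hl => isSum_unique ⟨l1, v, l2, hF, hk, hl, Same.refl _⟩ h

/-- the sum of the extents -/
def sw (Qc : List Dir → Prop) (n : ℕ) : ℝ := ∑ w ∈ K Qc n, (wid w : ℝ)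

theorem halfW (k : List V) (n : ℕ) : sw (KT k) n ≤ 2 * sw (KO k) n := by
  have h1 : K (KT k) n ⊆ K (KO k) n ∪ K (KO k.reverse) n := by
    intro w hw
    rw [mem_K] at hw
    obtain ⟨h1, h2, h3 | h3⟩ := hw
    · exact mem_union_left _ (mem_K.2 ⟨h1, h2, h3⟩)
    · exact mem_union_right _ (mem_K.2 ⟨h1, h2, h3⟩)
  have h2 : sw (KO k.reverse) n ≤ sw (KO k) n := by
    unfold sw
    have e1 : ∑ w ∈ K (KO k.reverse) n, (wid w : ℝ) =
        ∑ w ∈ K (KO k.reverse) n, (wid (back w) : ℝ) := by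
      refine Finset.sum_congr rfl fun w hw => ?_
      rw [wid_back ((mem_K.1 hw).2.1.2.1)]
    have e2 : ∑ w ∈ K (KO k.reverse) n, (wid (back w) : ℝ) =
        ∑ u ∈ (K (KO k.reverse) n).image back, (wid u : ℝ) :=
      (Finset.sum_image (f := fun u => (wid u : ℝ)) back_inj.injOn).symm
    rw [e1, e2]
    refine Finset.sum_le_sum_of_subset_of_nonneg ?_ fun _ _ _ => Nat.cast_nonneg _
    intro u hu
    obtain ⟨w, hw, rfl⟩ := mem_image.1 hu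
    have hw' := mem_K.1 hw
    obtain ⟨h3, h4⟩ := back_word S_rot_proof c_rev S_simple_proof hw'.2.1
    refine mem_K.2 ⟨by simpa [back] using hw'.1, h3, ?_⟩
    have h5 := (c_rev _ _).2 hw'.2.2
    rw [List.reverse_reverse] at h5
    exact h4.trans h5
  have h3 : sw (KT k) n ≤ sw (KO k) n + sw (KO k.reverse) n := by
    unfold sw
    refine (Finset.sum_le_sum_of_subset_of_nonneg h1 fun _ _ _ => Nat.cast_nonneg _).trans ?_
    have := Finset.sum_union_inter (s₁ := K (KO k) n) (s₂ := K (KO k.reverse) n)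
      (f := fun w => (wid w : ℝ))
    have h4 : 0 ≤ ∑ w ∈ K (KO k) n ∩ K (KO k.reverse) n, (wid w : ℝ) :=
      Finset.sum_nonneg fun _ _ => Nat.cast_nonneg _
    linarith
  linarith

/-- the inequality for three classes -/
def SumIneq (Pc Qc Rc : List Dir → Prop) : Prop :=
  ∃ (β N₀ : ℕ) (c : ℝ), 0 < c ∧ ∀ n m : ℕ, N₀ ≤ n → N₀ ≤ m →
    c * (((max n m : ℕ) : ℝ) ^ (2 / 3 : ℝ) + mw Pc n * mw Qc m) *
      ((min n m : ℕ) / ((n : ℝ) + m)) * (pq Pc n * pq Qc m) ≤ pq Rc (n + m + 2 * β)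

theorem aux3 {X A B A' B' S T S' T' : ℝ} (hX : 0 ≤ X) (hA : A ≤ 2 * A') (hB : B ≤ 2 * B')
    (hS : S ≤ 2 * S') (hT : T ≤ 2 * T') (a0 : 0 ≤ A) (b0 : 0 ≤ B) (s0 : 0 ≤ S) (t0 : 0 ≤ T) :
    X * (A * B) + S * T ≤ 4 * (X * (A' * B') + S' * T') := by
  have h1 : A * B ≤ (2 * A') * (2 * B') := mul_le_mul hA hB b0 (by linarith)
  have h2 : S * T ≤ (2 * S') * (2 * T') := mul_le_mul hS hT t0 (by linarith)
  have h3 := mul_le_mul_of_nonneg_left h1 hX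
  calc X * (A * B) + S * T ≤ X * ((2 * A') * (2 * B')) + (2 * S') * (2 * T') := add_le_add h3 h2
    _ = _ := by ring

/-- unnormalised form of the left-hand side -/
theorem lhs_eq (Pc Qc : List Dir → Prop) (n m : ℕ) (X : ℝ) :
    (X + mw Pc n * mw Qc m) * (a Pc n * a Qc m) =
      X * (a Pc n * a Qc m) + sw Pc n * sw Qc m := by
  unfold sw
  rw [← mw_mul, ← mw_mul]
  ring

theorem kt_ineq {k l s : List V} (h : IsSum k l s) : SumIneq (KT k) (KT l) (KT s) := by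
  obtain ⟨β, N₀, c, hc, hm⟩ := mainP (KO k) (KO l) (KO s) (ko_si k) (ko_si l) (ko_si s)
    (cs_of_isSum h)
  refine ⟨β, max N₀ 1, c / 4, by positivity, fun n m hn hm' => ?_⟩
  have hn0 : (0 : ℝ) < n := by
    exact_mod_cast (lt_of_lt_of_le Nat.one_pos ((le_max_right _ _).trans hn))
  have hm0 : (0 : ℝ) < m := by
    exact_mod_cast (lt_of_lt_of_le Nat.one_pos ((le_max_right _ _).trans hm'))
  have h1 := hm n m ((le_max_left _ _).trans hn) ((le_max_left _ _).trans hm')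
  have h2 : pq (KO s) (n + m + 2 * β) ≤ pq (KT s) (n + m + 2 * β) := by
    unfold pq
    refine div_le_div_of_nonneg_right ?_ (by positivity)
    unfold a
    refine Nat.cast_le.2 (card_le_card ?_)
    intro w hw
    rw [mem_K] at hw ⊢
    exact ⟨hw.1, hw.2.1, Or.inl hw.2.2⟩
  have ha : (a (KT k) n : ℝ) ≤ 2 * a (KO k) n := by
    exact_mod_cast half S_rot_proof c_rev S_simple_proof k n
  have hb : (a (KT l) m : ℝ) ≤ 2 * a (KO l) m := by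
    exact_mod_cast half S_rot_proof c_rev S_simple_proof l m
  have hsa : (0 : ℝ) ≤ sw (KT k) n := Finset.sum_nonneg fun _ _ => Nat.cast_nonneg _
  have hsb : (0 : ℝ) ≤ sw (KT l) m := Finset.sum_nonneg fun _ _ => Nat.cast_nonneg _
  set X : ℝ := ((max n m : ℕ) : ℝ) ^ (2 / 3 : ℝ) with hX
  have hX0 : 0 ≤ X := by positivity
  have h3 : X * (a (KT k) n * a (KT l) m) + sw (KT k) n * sw (KT l) m ≤
      4 * (X * (a (KO k) n * a (KO l) m) + sw (KO k) n * sw (KO l) m) :=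
    aux3 hX0 ha hb (halfW k n) (halfW l m) (Nat.cast_nonneg _) (Nat.cast_nonneg _) hsa hsb
  rw [← lhs_eq, ← lhs_eq] at h3
  refine le_trans ?_ (h1.trans h2)
  unfold pq
  set μ : ℝ := ((min n m : ℕ) : ℝ) with hμ
  have hμ0 : 0 ≤ μ := by positivity
  have e1 : c / 4 * (X + mw (KT k) n * mw (KT l) m) * (μ / ((n : ℝ) + m)) *
      ((a (KT k) n : ℝ) / (2 * n) * ((a (KT l) m : ℝ) / (2 * m))) =
      ((X + mw (KT k) n * mw (KT l) m) * (a (KT k) n * a (KT l) m)) *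
        (c / 4 * (μ / ((n : ℝ) + m)) * (1 / (2 * n) * (1 / (2 * m)))) := by ring
  have e2 : c * (X + mw (KO k) n * mw (KO l) m) * (μ / ((n : ℝ) + m)) *
      ((a (KO k) n : ℝ) / (2 * n) * ((a (KO l) m : ℝ) / (2 * m))) =
      (4 * ((X + mw (KO k) n * mw (KO l) m) * (a (KO k) n * a (KO l) m))) *
        (c / 4 * (μ / ((n : ℝ) + m)) * (1 / (2 * n) * (1 / (2 * m)))) := by ring
  rw [e1, e2]
  exact mul_le_mul_of_nonneg_right h3 (by positivity)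

theorem class_ineq {Qc : List Dir → Prop} (hQ : KClass Qc) (hc : CSum Qc) :
    SumIneq Qc Qc Qc :=
  mainP Qc Qc Qc hQ.same hQ.same hQ.same hc

/-- the mean extent is at least of order `n ^ ν` -/
def Wide (Qc : List Dir → Prop) (ν : ℝ) : Prop :=
  ∃ c : ℝ, 0 < c ∧ ∀ᶠ j : ℕ in atTop, c * (2 * j : ℝ) ^ ν ≤ mw Qc (2 * j)

/-- the inequality for equal lengths with the factor `n ^ (2 / 3)` -/
theorem diag1 {Pc Qc Rc : List Dir → Prop} (h : SumIneq Pc Qc Rc) :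
    ∃ (β N₀ : ℕ) (c : ℝ), 0 < c ∧ ∀ n : ℕ, N₀ ≤ n →
      c * (n : ℝ) ^ (2 / 3 : ℝ) * (pq Pc n * pq Qc n) ≤ pq Rc (2 * (n + β)) := by
  obtain ⟨β, N₀, c, hc, h⟩ := h
  refine ⟨β, max N₀ 1, c / 2, by positivity, fun n hn => ?_⟩
  have h1 := h n n ((le_max_left _ _).trans hn) ((le_max_left _ _).trans hn)
  have hn0 : (0 : ℝ) < n := by
    exact_mod_cast (lt_of_lt_of_le Nat.one_pos ((le_max_right _ _).trans hn))
  rw [max_self, min_self, show n + n + 2 * β = 2 * (n + β) by ring] at h1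
  have hh : (n : ℝ) / (n + n) = 1 / 2 := by field_simp; norm_num
  rw [hh] at h1
  refine le_trans ?_ h1
  have h2 : 0 ≤ mw Pc n * mw Qc n := mul_nonneg (mw_nonneg _ _) (mw_nonneg _ _)
  have h3 : 0 ≤ pq Pc n * pq Qc n := by unfold pq; positivity
  have h4 : c / 2 * (n : ℝ) ^ (2 / 3 : ℝ) ≤
      c * ((n : ℝ) ^ (2 / 3 : ℝ) + mw Pc n * mw Qc n) * (1 / 2) := by
    have : 0 ≤ c * (mw Pc n * mw Qc n) := by positivity
    linarith
  exact mul_le_mul_of_nonneg_right h4 h3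

/-- the inequality for equal lengths with the factor `n ^ (ν + ν')` -/
theorem diag2 {Pc Qc Rc : List Dir → Prop} (h : SumIneq Pc Qc Rc) {ν ν' : ℝ} (hP : Wide Pc ν)
    (hQ : Wide Qc ν') :
    ∃ (β N₀ : ℕ) (c : ℝ), 0 < c ∧ ∀ n : ℕ, N₀ ≤ n →
      c * (n : ℝ) ^ (ν + ν') * (pq Pc n * pq Qc n) ≤ pq Rc (2 * (n + β)) := by
  obtain ⟨β, N₀, c, hc, h⟩ := h
  obtain ⟨c₁, hc₁, h₁⟩ := hP
  obtain ⟨c₂, hc₂, h₂⟩ := hQ
  obtain ⟨J, hJ⟩ := eventually_atTop.1 (h₁.and h₂)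
  refine ⟨β, max N₀ (2 * J + 1), c / 2 * c₁ * c₂, by positivity, fun n hn => ?_⟩
  have hnJ : 2 * J + 1 ≤ n := (le_max_right _ _).trans hn
  have h1 := h n n ((le_max_left _ _).trans hn) ((le_max_left _ _).trans hn)
  have hn0 : (0 : ℝ) < n := by exact_mod_cast (by omega : 0 < n)
  rw [max_self, min_self, show n + n + 2 * β = 2 * (n + β) by ring] at h1
  have hh : (n : ℝ) / (n + n) = 1 / 2 := by field_simp; norm_num
  rw [hh] at h1
  rcases Nat.even_or_odd' n with ⟨j, hj | hj⟩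
  · refine le_trans ?_ h1
    obtain ⟨g1, g2⟩ := hJ j (by omega)
    have hnj : (n : ℝ) = 2 * j := by rw [hj]; push_cast; ring
    rw [← hj, ← hnj] at g1 g2
    have h3 : 0 ≤ pq Pc n * pq Qc n := by unfold pq; positivity
    refine mul_le_mul_of_nonneg_right ?_ h3
    have g3 : (c₁ * (n : ℝ) ^ ν) * (c₂ * (n : ℝ) ^ ν') ≤ mw Pc n * mw Qc n :=
      mul_le_mul g1 g2 (by positivity) (mw_nonneg _ _)
    have g4 : (n : ℝ) ^ (ν + ν') = (n : ℝ) ^ ν * (n : ℝ) ^ ν' := Real.rpow_add hn0 _ _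
    have g5 : 0 ≤ (n : ℝ) ^ (2 / 3 : ℝ) := by positivity
    calc c / 2 * c₁ * c₂ * (n : ℝ) ^ (ν + ν') =
          c / 2 * ((c₁ * (n : ℝ) ^ ν) * (c₂ * (n : ℝ) ^ ν')) := by rw [g4]; ring
      _ ≤ c / 2 * (mw Pc n * mw Qc n) := mul_le_mul_of_nonneg_left g3 (by positivity)
      _ ≤ c / 2 * ((n : ℝ) ^ (2 / 3 : ℝ) + mw Pc n * mw Qc n) :=
        mul_le_mul_of_nonneg_left (by linarith) (by positivity)
      _ = _ := by ring
  · have h0 : pq Pc n = 0 := by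
      unfold pq
      rw [a_odd Pc n (by omega)]
      simp
    rw [h0, zero_mul, mul_zero]
    unfold pq
    positivity

theorem pq_nonneg (Qc : List Dir → Prop) (n : ℕ) : 0 ≤ pq Qc n := by
  unfold pq
  positivity

theorem even_form {Pc Qc Rc : List Dir → Prop} {s : ℝ}
    (h : ∃ (β N₀ : ℕ) (c : ℝ), 0 < c ∧ ∀ n : ℕ, N₀ ≤ n →
      c * (n : ℝ) ^ s * (pq Pc n * pq Qc n) ≤ pq Rc (2 * (n + β))) :
    ∃ (β N₀ : ℕ) (c : ℝ), 0 < c ∧ ∀ j : ℕ, N₀ ≤ j →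
      c * (2 * j : ℝ) ^ s * (pq Pc (2 * j) * pq Qc (2 * j)) ≤ pq Rc (2 * (2 * j + β)) := by
  obtain ⟨β, N₀, c, hc, h⟩ := h
  refine ⟨β, N₀, c, hc, fun j hj => ?_⟩
  have := h (2 * j) (by omega)
  push_cast at this
  exact this

/-- the asymptotic form -/
def Form (Qc : List Dir → Prop) (A α g : ℝ) : Prop :=
  Tendsto (fun j : ℕ => pq Qc (2 * j) / ((2 * j : ℝ) ^ (α - 3) * g ^ (2 * j))) atTop (𝓝 A)

theorem expo_sum {Pc Qc Rc : List Dir → Prop} (h : SumIneq Pc Qc Rc) (g : ℝ) (hg : 0 < g)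
    (A₁ A₂ A₃ α₁ α₂ α₃ : ℝ) (hA₁ : 0 < A₁) (hA₂ : 0 < A₂) (h1 : Form Pc A₁ α₁ g)
    (h2 : Form Qc A₂ α₂ g) (h3 : Form Rc A₃ α₃ g) :
    α₁ + α₂ - 7 / 3 ≤ α₃ ∧
      ∀ ν ν' : ℝ, Wide Pc ν → Wide Qc ν' → α₁ + α₂ - 3 + (ν + ν') ≤ α₃ := by
  constructor
  · have := An.expo3 (pq Pc) (pq Qc) (pq Rc) (2 / 3) (pq_nonneg Rc) (even_form (diag1 h)) g hg
      A₁ A₂ A₃ α₁ α₂ α₃ hA₁ hA₂ h1 h2 h3
    linarith
  · intro ν ν' hP hQ
    exact An.expo3 (pq Pc) (pq Qc) (pq Rc) (ν + ν') (pq_nonneg Rc) (even_form (diag2 h hP hQ))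
      g hg A₁ A₂ A₃ α₁ α₂ α₃ hA₁ hA₂ h1 h2 h3

theorem pq_upper (Qc : List Dir → Prop) (hg : 0 < gr Qc) (τ : ℝ) (hτ : 0 < τ) :
    ∃ C : ℝ, ∀ n : ℕ, pq Qc n ≤ C * ((1 + τ) * gr Qc) ^ n := by
  obtain ⟨C, hC⟩ := GEN.upper S_five_proof Qc hg τ hτ
  refine ⟨C, fun n => le_trans ?_ (hC n)⟩
  unfold pq
  rcases Nat.eq_zero_or_pos n with rfl | hn
  · simp
  · refine div_le_self (Nat.cast_nonneg _) ?_
    have : (1 : ℝ) ≤ n := by exact_mod_cast hn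
    linarith

theorem class_bound {Qc : List Dir → Prop} (hQ : KClass Qc) (hne : ∃ w, SAP w ∧ Qc w) {s : ℝ}
    (hs : 0 ≤ s) (h : ∃ (β N₀ : ℕ) (c : ℝ), 0 < c ∧ ∀ n : ℕ, N₀ ≤ n →
      c * (n : ℝ) ^ s * (pq Qc n * pq Qc n) ≤ pq Qc (2 * (n + β))) :
    ∃ C : ℝ, ∀ n : ℕ, 1 ≤ n → pq Qc n ≤ C * (n : ℝ) ^ (-s) * gr Qc ^ n := by
  obtain ⟨β, N₀, c, hc, h⟩ := h
  have hg := (gr_bounds Qc hQ hne).1
  refine An.coreS (pq Qc) (pq_nonneg Qc) (gr Qc) (by linarith)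
    (fun τ hτ => pq_upper Qc (by linarith) τ hτ) s hs β N₀ c hc fun n hn => ?_
  have := h n hn
  rwa [← pow_two] at this

theorem shift_le {Qc : List Dir → Prop} (hQ : KClass Qc) (hc : CSum Qc)
    (hne : ∃ w, SAP w ∧ Qc w) (β : ℕ) :
    ∃ (M : ℝ) (N₁ : ℕ), 0 < M ∧ ∀ N : ℕ, N₁ ≤ N → pq Qc (N + 2 * β) ≤ M * pq Qc N := by
  have h1 := (class_sum Qc hQ hne hc).2.eventually
    (gt_mem_nhds (show gr Qc ^ 2 < gr Qc ^ 2 + 1 by linarith))
  obtain ⟨J, hJ⟩ := eventually_atTop.1 (h1.and (class_pos Qc hQ hne))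
  have hstep : ∀ j : ℕ, J ≤ j → pq Qc (2 * j + 2) ≤ (gr Qc ^ 2 + 1) * pq Qc (2 * j) := by
    intro j hj
    obtain ⟨h2, h3⟩ := hJ j hj
    rw [div_lt_iff₀ h3] at h2
    exact h2.le
  have hM : 0 < gr Qc ^ 2 + 1 := by positivity
  refine ⟨(gr Qc ^ 2 + 1) ^ β, 2 * J, by positivity, fun N hN => ?_⟩
  rcases Nat.even_or_odd' N with ⟨j, rfl | rfl⟩
  · have hj : J ≤ j := by omega
    clear hN
    induction β with
    | zero => simp
    | succ β ih =>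
      have h2 := hstep (j + β) (by omega)
      have e1 : 2 * (j + β) + 2 = 2 * j + 2 * (β + 1) := by ring
      have e2 : 2 * (j + β) = 2 * j + 2 * β := by ring
      rw [e1, e2] at h2
      calc pq Qc (2 * j + 2 * (β + 1)) ≤ (gr Qc ^ 2 + 1) * pq Qc (2 * j + 2 * β) := h2
        _ ≤ (gr Qc ^ 2 + 1) * ((gr Qc ^ 2 + 1) ^ β * pq Qc (2 * j)) :=
          mul_le_mul_of_nonneg_left ih hM.le
        _ = _ := by rw [pow_succ]; ring
  · have h0 : pq Qc (2 * j + 1 + 2 * β) = 0 := by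
      unfold pq
      rw [a_odd Qc _ (by omega)]
      simp
    rw [h0]
    have := pq_nonneg Qc (2 * j + 1)
    positivity

/-- the inequality without a shift -/
theorem class_ineq' {Qc : List Dir → Prop} (hQ : KClass Qc) (hc : CSum Qc)
    (hne : ∃ w, SAP w ∧ Qc w) : ∃ (N₀ : ℕ) (c : ℝ), 0 < c ∧ ∀ n m : ℕ, N₀ ≤ n → N₀ ≤ m →
      c * (((max n m : ℕ) : ℝ) ^ (2 / 3 : ℝ) + mw Qc n * mw Qc m) *
        ((min n m : ℕ) / ((n : ℝ) + m)) * (pq Qc n * pq Qc m) ≤ pq Qc (n + m) := by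
  obtain ⟨β, N₀, c, hc0, h⟩ := class_ineq hQ hc
  obtain ⟨M, N₁, hM, h'⟩ := shift_le hQ hc hne β
  refine ⟨max N₀ N₁, c / M, by positivity, fun n m hn hm => ?_⟩
  have h1 := h n m ((le_max_left _ _).trans hn) ((le_max_left _ _).trans hm)
  have h2 := h' (n + m) (((le_max_right _ _).trans hn).trans (Nat.le_add_right _ _))
  have h3 := h1.trans h2
  rw [← div_le_iff₀' hM] at h3
  refine le_trans (le_of_eq ?_) h3
  ring

/-- all statements for a class that is closed under connected sums -/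
theorem class_all {Qc : List Dir → Prop} (hQ : KClass Qc) (hc : CSum Qc)
    (hne : ∃ w, SAP w ∧ Qc w) :
    (∃ C : ℝ, ∀ n : ℕ, 1 ≤ n → pq Qc n ≤ C * (n : ℝ) ^ (-(2 / 3) : ℝ) * gr Qc ^ n) ∧
    (∀ ν : ℝ, 0 ≤ ν → Wide Qc ν →
      ∃ C : ℝ, ∀ n : ℕ, 1 ≤ n → pq Qc n ≤ C * (n : ℝ) ^ (-(2 * ν)) * gr Qc ^ n) ∧
    ∀ A α : ℝ, 0 < A → Form Qc A α (gr Qc) →
      α ≤ 7 / 3 ∧ ∀ ν : ℝ, 0 ≤ ν → Wide Qc ν → α ≤ 3 - 2 * ν := by
  have hg := (gr_bounds Qc hQ hne).1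
  have h1 := class_bound hQ hne (by norm_num) (diag1 (class_ineq hQ hc))
  have h2 : ∀ ν : ℝ, 0 ≤ ν → Wide Qc ν →
      ∃ C : ℝ, ∀ n : ℕ, 1 ≤ n → pq Qc n ≤ C * (n : ℝ) ^ (-(2 * ν)) * gr Qc ^ n := by
    intro ν hν hW
    have h3 := diag2 (class_ineq hQ hc) hW hW
    rw [← two_mul] at h3
    exact class_bound hQ hne (by positivity) h3
  refine ⟨h1, h2, fun A α hA h => ⟨?_, fun ν hν hW => ?_⟩⟩
  · have := An.expo (pq Qc) (gr Qc) (2 / 3) (by linarith) h1 A α hA h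
    linarith
  · exact An.expo (pq Qc) (gr Qc) (2 * ν) (by linarith) (h2 ν hν hW) A α hA h

end

end KQ

end KN
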