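import Mathlib

/-!
# Sums of plane lattice walks

Two walks `a`, `b` in `ℤ²` with displacement vectors `u`, `v`: the set of all sums of their
vertices has at least `|det (u, v)|` elements.

Proof. Let `G` be the quotient of `ℤ²` by the lattice generated by `u` and `v`. Let `H`, `V` be the
chains of horizontal and vertical edges in the group ring of `G`. The element
`H_a V_b - V_a H_b` is annihilated by `T₁ - 1` and `T₂ - 1`, so its coefficients are all the same,
and their sum is `det (u, v)`.
-/

set_option autoImplicit false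

namespace KN

namespace KQ

namespace Pl

open Finset AddMonoidAlgebra

/-- admissible steps -/
def Stp (s : ℤ × ℤ) : Prop :=
  s = (0, 0) ∨ s = (1, 0) ∨ s = (-1, 0) ∨ s = (0, 1) ∨ s = (0, -1)

noncomputable section

variable {G : Type*} [AddCommGroup G] (f : ℤ × ℤ →+ G) (a b : ℕ → ℤ × ℤ)

/-- the chain of horizontal edges -/
def Hh (r : ℕ) : AddMonoidAlgebra ℤ G := ∑ i ∈ range r,
  (if a (i + 1) - a i = (1, 0) then single (f (a i)) (1 : ℤ)
    else if a (i + 1) - a i = (-1, 0) then - single (f (a (i + 1))) (1 : ℤ) else 0)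

/-- the chain of vertical edges -/
def Vv (r : ℕ) : AddMonoidAlgebra ℤ G := ∑ i ∈ range r,
  (if a (i + 1) - a i = (0, 1) then single (f (a i)) (1 : ℤ)
    else if a (i + 1) - a i = (0, -1) then - single (f (a (i + 1))) (1 : ℤ) else 0)

theorem mul_s (x y : G) : (single x (1 : ℤ) : AddMonoidAlgebra ℤ G) * single y (1 : ℤ) =
    single (x + y) (1 : ℤ) := by
  rw [single_mul_single, one_mul]

theorem bd (r : ℕ) (h : ∀ i < r, Stp (a (i + 1) - a i)) :
    (single (f (1, 0)) (1 : ℤ) - 1) * Hh f a r + (single (f (0, 1)) (1 : ℤ) - 1) * Vv f a r =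
      single (f (a r)) (1 : ℤ) - single (f (a 0)) (1 : ℤ) := by
  induction r with
  | zero => simp [Hh, Vv]
  | succ r ih =>
    have ih' := ih fun i hi => h i (by omega)
    unfold Hh Vv at ih' ⊢
    rw [sum_range_succ, sum_range_succ]
    have key : (single (f (1, 0)) (1 : ℤ) - 1) *
        (if a (r + 1) - a r = (1, 0) then single (f (a r)) (1 : ℤ)
          else if a (r + 1) - a r = (-1, 0) then - single (f (a (r + 1))) (1 : ℤ) else 0) +
        (single (f (0, 1)) (1 : ℤ) - 1) *
        (if a (r + 1) - a r = (0, 1) then single (f (a r)) (1 : ℤ)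
          else if a (r + 1) - a r = (0, -1) then - single (f (a (r + 1))) (1 : ℤ) else 0) =
        (single (f (a (r + 1))) (1 : ℤ) - single (f (a r)) (1 : ℤ) : AddMonoidAlgebra ℤ G) := by
      have e : a (r + 1) = (a (r + 1) - a r) + a r := by abel
      rcases h r (by omega) with hs | hs | hs | hs | hs
      · have e2 : a (r + 1) = a r := by rw [e, hs]; simp
        rw [hs, e2]
        simp
      · have e2 : f (a (r + 1)) = f (1, 0) + f (a r) := by rw [← map_add, ← hs, ← e]
        rw [hs, e2]
        simp [sub_mul]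
      · have e2 : f (a r) = f (1, 0) + f (a (r + 1)) := by
          rw [← map_add]
          congr 1
          rw [e, hs]
          ext <;> simp
        rw [hs, e2]
        simp [sub_mul]
      · have e2 : f (a (r + 1)) = f (0, 1) + f (a r) := by rw [← map_add, ← hs, ← e]
        rw [hs, e2]
        simp [sub_mul]
      · have e2 : f (a r) = f (0, 1) + f (a (r + 1)) := by
          rw [← map_add]
          congr 1
          rw [e, hs]
          ext <;> simp
        rw [hs, e2]
        simp [sub_mul]
    linear_combination ih' + key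

/-- the sum of the coefficients -/
def ep : AddMonoidAlgebra ℤ G →+* ℤ :=
  (AddMonoidAlgebra.lift ℤ ℤ G (1 : Multiplicative G →* ℤ)).toRingHom

theorem ep_single (x : G) : ep (single x (1 : ℤ) : AddMonoidAlgebra ℤ G) = 1 := by
  simp [ep]

theorem ep_H (r : ℕ) (h : ∀ i < r, Stp (a (i + 1) - a i)) :
    ep (Hh f a r) = (a r).1 - (a 0).1 := by
  induction r with
  | zero => simp [Hh]
  | succ r ih =>
    have ih' := ih fun i hi => h i (by omega)
    unfold Hh at ih' ⊢
    rw [sum_range_succ, map_add, ih']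
    have e : (a (r + 1)).1 = (a (r + 1) - a r).1 + (a r).1 := by simp
    rcases h r (by omega) with hs | hs | hs | hs | hs
    all_goals
      rw [e, hs]
      simp [ep_single]
      try ring

theorem ep_V (r : ℕ) (h : ∀ i < r, Stp (a (i + 1) - a i)) :
    ep (Vv f a r) = (a r).2 - (a 0).2 := by
  induction r with
  | zero => simp [Vv]
  | succ r ih =>
    have ih' := ih fun i hi => h i (by omega)
    unfold Vv at ih' ⊢
    rw [sum_range_succ, map_add, ih']
    have e : (a (r + 1)).2 = (a (r + 1) - a r).2 + (a r).2 := by simp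
    rcases h r (by omega) with hs | hs | hs | hs | hs
    all_goals
      rw [e, hs]
      simp [ep_single]
      try ring

theorem H_supp (r : ℕ) (x : G) (hx : (Hh f a r).coeff x ≠ 0) : ∃ i ≤ r, x = f (a i) := by
  classical
  by_contra hcon
  push Not at hcon
  apply hx
  unfold Hh
  rw [coeff_sum, Finsupp.finset_sum_apply]
  refine sum_eq_zero fun i hi => ?_
  rw [mem_range] at hi
  have h1 := hcon i hi.le
  have h2 := hcon (i + 1) hi
  split_ifs
  · rw [coeff_single]
    exact Finsupp.single_eq_of_ne h1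
  · rw [coeff_neg, coeff_single, Finsupp.neg_apply, Finsupp.single_eq_of_ne h2, neg_zero]
  · rfl

theorem V_supp (r : ℕ) (x : G) (hx : (Vv f a r).coeff x ≠ 0) : ∃ i ≤ r, x = f (a i) := by
  classical
  by_contra hcon
  push Not at hcon
  apply hx
  unfold Vv
  rw [coeff_sum, Finsupp.finset_sum_apply]
  refine sum_eq_zero fun i hi => ?_
  rw [mem_range] at hi
  have h1 := hcon i hi.le
  have h2 := hcon (i + 1) hi
  split_ifs
  · rw [coeff_single]
    exact Finsupp.single_eq_of_ne h1
  · rw [coeff_neg, coeff_single, Finsupp.neg_apply, Finsupp.single_eq_of_ne h2, neg_zero]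
  · rfl

theorem cover (hf : Function.Surjective f) (r s : ℕ) (ha : ∀ i < r, Stp (a (i + 1) - a i))
    (hb : ∀ i < s, Stp (b (i + 1) - b i)) (ha0 : f (a r) = f (a 0)) (hb0 : f (b s) = f (b 0))
    (hdet : ((a r).1 - (a 0).1) * ((b s).2 - (b 0).2) -
      ((a r).2 - (a 0).2) * ((b s).1 - (b 0).1) ≠ 0) (g : G) :
    ∃ i ≤ r, ∃ j ≤ s, g = f (a i) + f (b j) := by
  classical
  set T₁ : AddMonoidAlgebra ℤ G := single (f (1, 0)) (1 : ℤ) with hT₁
  set T₂ : AddMonoidAlgebra ℤ G := single (f (0, 1)) (1 : ℤ) with hT₂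
  set J : AddMonoidAlgebra ℤ G := Hh f a r * Vv f b s - Vv f a r * Hh f b s with hJ
  have b1 := bd f a r ha
  have b2 := bd f b s hb
  rw [ha0, sub_self] at b1
  rw [hb0, sub_self] at b2
  have j1 : T₁ * J = J := by
    rw [hJ]
    linear_combination Vv f b s * b1 - Vv f a r * b2
  have j2 : T₂ * J = J := by
    rw [hJ]
    linear_combination Hh f a r * b2 - Hh f b s * b1
  have k1 : ∀ x : G, J.coeff (x + f (1, 0)) = J.coeff x := by
    intro x
    have h := congrArg (fun F : AddMonoidAlgebra ℤ G => F.coeff (x + f (1, 0))) j1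
    simp only [hT₁] at h
    rw [coeff_single_mul_apply] at h
    rw [← h, one_mul]
    congr 1
    abel
  have k2 : ∀ x : G, J.coeff (x + f (0, 1)) = J.coeff x := by
    intro x
    have h := congrArg (fun F : AddMonoidAlgebra ℤ G => F.coeff (x + f (0, 1))) j2
    simp only [hT₂] at h
    rw [coeff_single_mul_apply] at h
    rw [← h, one_mul]
    congr 1
    abel
  have k1' : ∀ (n : ℤ) (x : G), J.coeff (x + n • f (1, 0)) = J.coeff x := by
    intro n
    induction n using Int.induction_on with
    | zero => intro x; simp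
    | succ n ih =>
      intro x
      rw [add_smul, one_smul, ← add_assoc, k1]
      exact ih x
    | pred n ih =>
      intro x
      rw [← k1, sub_smul, one_smul]
      have e : x + (-(n : ℤ) • f (1, 0) - f (1, 0)) + f (1, 0) = x + -(n : ℤ) • f (1, 0) := by abel
      rw [e]
      exact ih x
  have k2' : ∀ (n : ℤ) (x : G), J.coeff (x + n • f (0, 1)) = J.coeff x := by
    intro n
    induction n using Int.induction_on with
    | zero => intro x; simp
    | succ n ih =>
      intro x
      rw [add_smul, one_smul, ← add_assoc, k2]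
      exact ih x
    | pred n ih =>
      intro x
      rw [← k2, sub_smul, one_smul]
      have e : x + (-(n : ℤ) • f (0, 1) - f (0, 1)) + f (0, 1) = x + -(n : ℤ) • f (0, 1) := by abel
      rw [e]
      exact ih x
  have kc : ∀ x : G, J.coeff x = J.coeff 0 := by
    intro x
    obtain ⟨⟨m, n⟩, rfl⟩ := hf x
    have e : f (m, n) = 0 + m • f (1, 0) + n • f (0, 1) := by
      rw [← map_zsmul, ← map_zsmul, ← map_zero f, ← map_add, ← map_add]
      congr 1
      ext <;> simp
    rw [e, k2', k1']
  have hne : J.coeff g ≠ 0 := by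
    intro h0
    have hJ0 : J = 0 := by
      ext x
      rw [kc x, ← kc g, h0]
      rfl
    apply hdet
    have e1 := congrArg ep hJ0
    rw [hJ, map_sub, map_mul, map_mul, ep_H f a r ha, ep_V f a r ha, ep_H f b s hb,
      ep_V f b s hb, map_zero] at e1
    exact e1
  -- the support
  have hprod : ∀ F F' : AddMonoidAlgebra ℤ G, (F * F').coeff g ≠ 0 →
      ∃ x y, F.coeff x ≠ 0 ∧ F'.coeff y ≠ 0 ∧ g = x + y := by
    intro F F' h
    rw [coeff_mul_apply_left, Finsupp.sum] at h
    obtain ⟨x, hx, hxy⟩ := Finset.exists_ne_zero_of_sum_ne_zero h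
    exact ⟨x, -x + g, Finsupp.mem_support_iff.1 hx, right_ne_zero_of_mul hxy, by abel⟩
  by_cases h1 : (Hh f a r * Vv f b s).coeff g = 0
  · have h2 : (Vv f a r * Hh f b s).coeff g ≠ 0 := by
      intro h2
      apply hne
      rw [hJ, coeff_sub, Finsupp.sub_apply, h1, h2, sub_zero]
    obtain ⟨x, y, hx, hy, rfl⟩ := hprod _ _ h2
    obtain ⟨i, hi, rfl⟩ := V_supp f a r x hx
    obtain ⟨j, hj, rfl⟩ := H_supp f b s y hy
    exact ⟨i, hi, j, hj, rfl⟩
  · obtain ⟨x, y, hx, hy, rfl⟩ := hprod _ _ h1
    obtain ⟨i, hi, rfl⟩ := H_supp f a r x hx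
    obtain ⟨j, hj, rfl⟩ := V_supp f b s y hy
    exact ⟨i, hi, j, hj, rfl⟩

end

/-- the quotient of the lattice by two vectors -/
theorem quot (u v : ℤ × ℤ) (h : u.1 * v.2 - u.2 * v.1 ≠ 0) :
    ∃ (G : Type) (_ : AddCommGroup G) (f : ℤ × ℤ →+ G), Function.Surjective f ∧ f u = 0 ∧
      f v = 0 ∧ Nat.card G = (u.1 * v.2 - u.2 * v.1).natAbs := by
  classical
  set A : Matrix (Fin 2) (Fin 2) ℤ := !![u.1, v.1; u.2, v.2] with hA
  have hdet : A.det = u.1 * v.2 - u.2 * v.1 := by
    rw [hA, Matrix.det_fin_two_of]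
    ring
  set L : (Fin 2 → ℤ) →ₗ[ℤ] (Fin 2 → ℤ) := Matrix.toLin' A with hL
  have hLdet : LinearMap.det L = A.det := LinearMap.det_toLin' A
  have hinj : Function.Injective L := by
    intro x y hxy
    apply Matrix.mulVec_injective_of_det_ne_zero (M := A) (by rw [hdet]; exact h)
    simpa [hL, Matrix.toLin'_apply] using hxy
  have hcard := Submodule.natAbs_det_equiv (LinearMap.range L) (LinearEquiv.ofInjective L hinj)
  have hcomp : (LinearMap.range L).subtype ∘ₗ AddMonoidHom.toIntLinearMap
      ((LinearEquiv.ofInjective L hinj : (Fin 2 → ℤ) ≃ₗ[ℤ] LinearMap.range L) :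
        (Fin 2 → ℤ) →+ LinearMap.range L) = L := by
    ext x
    rfl
  rw [hcomp, hLdet, hdet] at hcard
  refine ⟨(Fin 2 → ℤ) ⧸ LinearMap.range L, inferInstance,
    AddMonoidHom.mk' (fun p => Submodule.Quotient.mk ![p.1, p.2]) ?_, ?_, ?_, ?_, hcard.symm⟩
  · intro p q
    rw [← Submodule.Quotient.mk_add]
    congr 1
    ext i
    fin_cases i <;> simp
  · intro x
    obtain ⟨y, rfl⟩ := Submodule.Quotient.mk_surjective _ x
    refine ⟨(y 0, y 1), ?_⟩
    simp only [AddMonoidHom.mk'_apply]
    congr 1
    ext i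
    fin_cases i <;> simp
  · simp only [AddMonoidHom.mk'_apply]
    rw [Submodule.Quotient.mk_eq_zero]
    refine ⟨![1, 0], ?_⟩
    rw [hL, Matrix.toLin'_apply, hA]
    ext i
    fin_cases i <;> simp
  · simp only [AddMonoidHom.mk'_apply]
    rw [Submodule.Quotient.mk_eq_zero]
    refine ⟨![0, 1], ?_⟩
    rw [hL, Matrix.toLin'_apply, hA]
    ext i
    fin_cases i <;> simp

/-- **Two plane lattice walks with displacement vectors `u` and `v`: at least `|det (u, v)|` sums
of their vertices.** -/
theorem sumset (a b : ℕ → ℤ × ℤ) (r s : ℕ) (ha : ∀ i < r, Stp (a (i + 1) - a i))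
    (hb : ∀ i < s, Stp (b (i + 1) - b i)) :
    (((a r).1 - (a 0).1) * ((b s).2 - (b 0).2) -
      ((a r).2 - (a 0).2) * ((b s).1 - (b 0).1)).natAbs ≤
      ((range (r + 1) ×ˢ range (s + 1)).image (fun x => a x.1 + b x.2)).card := by
  classical
  by_cases h : ((a r).1 - (a 0).1) * ((b s).2 - (b 0).2) -
      ((a r).2 - (a 0).2) * ((b s).1 - (b 0).1) = 0
  · rw [h]
    simp
  · obtain ⟨G, _, f, hf, hu, hv, hG⟩ := quot (a r - a 0) (b s - b 0) (by simpa using h)
    simp only [Prod.fst_sub, Prod.snd_sub] at hG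
    rw [← hG]
    have hfa : f (a r) = f (a 0) := by
      rw [map_sub, sub_eq_zero] at hu
      exact hu
    have hfb : f (b s) = f (b 0) := by
      rw [map_sub, sub_eq_zero] at hv
      exact hv
    have hcov := cover f a b hf r s ha hb hfa hfb h
    set S := (range (r + 1) ×ˢ range (s + 1)).image (fun x => a x.1 + b x.2) with hS
    have hsurj : Function.Surjective (fun x : S => f x.1) := by
      intro g
      obtain ⟨i, hi, j, hj, rfl⟩ := hcov g
      refine ⟨⟨a i + b j, ?_⟩, by simp⟩
      rw [hS, mem_image]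
      exact ⟨(i, j), by simp only [mem_product, mem_range]; omega, rfl⟩
    have := Nat.card_le_card_of_surjective _ hsurj
    simpa using this

end Pl

end KQ

end KN
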