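import Pool.Agent.W606.UB.Stm

/-!
# Joining polygons of given classes: the statements

`Pc`, `Qc`, `Rc` are classes of closed words that only depend on the oriented knot type, such that
the connected sums of polygons of the classes `Pc` and `Qc` are of class `Rc`.
-/

set_option autoImplicit false

namespace KN

namespace KQ

open Finset Filter Topology UB
open scoped Classical

noncomputable section

/-- the class depends only on the oriented knot type -/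
def SI (Qc : List Dir → Prop) : Prop :=
  ∀ w w' : List Dir, SAP w → SAP w' → Same (vl w) (vl w') → Qc w → Qc w'

/-- the connected sums of a polygon of class `Pc` and one of class `Qc` are of class `Rc` -/
def CS (Pc Qc Rc : List Dir → Prop) : Prop := ∀ l1 v l2 : List Dir, Facing l1 v l2 →
  Pc (l1 ++ .zp :: l2) → Qc (.zm :: v) → Rc (join l1 v l2)

/-- insertion of an unknotted block -/
def Q_T1 : Prop := ∀ (T L : ℕ) (l1 l2 v : List Dir), Spot T L l1 l2 → SmR L v → U (.zm :: v) →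
  SAP (l1 ++ blk T v ++ l2) ∧ Same (vl (l1 ++ blk T v ++ l2)) (vl (l1 ++ .zp :: l2))

/-- the join -/
def Q_join (Pc Qc Rc : List Dir → Prop) : Prop := ∀ l1 v : List Dir, XS l1 v →
  Pc (l1 ++ [.zp]) → Qc (.zm :: v) → Rc (join l1 v [])

/-- the dock -/
def DockQ (Pc : List Dir → Prop) (T κ lam β R : ℕ) : Prop := ∀ w : List Dir, SAP w → Pc w →
  lam ≤ w.length →
  ∀ x N : Z3, Cont R {p | p ∈ path w} x N → 0 ≤ N.1 →
  ∃ (A B C S : List Dir) (k : ℕ) (e : Z3) (d : Dir),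
    k < w.length ∧ A.length ≤ lam ∧ B.length ≤ lam ∧ w.rotate k = C ++ S ∧
    (A ++ S ++ B).length + 1 = w.length + β ∧
    SAP ((A ++ S ++ B) ++ [.zp]) ∧ Pc ((A ++ S ++ B) ++ [.zp]) ∧
    pos (w.drop k) = e + (0, 0, 1) + pos B ∧
    (∀ g : Dir, dt N (vec g) ≤ dt N (vec d) + 700) ∧
    near κ e (x + (T : ℤ) • vec d) ∧
    ∀ p ∈ path ((A ++ S ++ B) ++ [.zp]), p + e ∈ path w ∨
      (p.1 ≤ 0 ∧ ∃ i : ℤ, 0 ≤ i ∧ i ≤ T + κ ∧ near κ (p + e) (x + i • vec d))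

/-- the dock in the standard frame -/
def Q_dockS (Pc : List Dir → Prop) : Prop := ∀ (v v1 v2 : List Dir) (s z : Dir), SmR 9 v →
  U (.zm :: v) → perp s z →
  s ≠ .xm → v = v1 ++ z :: v2 → (∀ p ∈ path v, dt p (vec s) ≤ dt (pos v2) (vec s)) →
  ∀ (T : ℕ) (l1 l2 : List Dir), Spot T 9 l1 l2 → Pc (l1 ++ .zp :: l2) →
  ∀ A B W : List Dir, ∀ e : Z3, A = v2 ++ List.replicate (T + 1) .xp →
    B = List.replicate (T + 1) .xm ++ v1 → e = pos l2 + ((T : ℤ) + 1, 0, 0) + pos v2 →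
    W = (A ++ (l2 ++ l1) ++ B) ++ [z] →
  SAP W ∧ Pc W ∧ ∀ p ∈ path W, p + e ∈ path (l1 ++ .zp :: l2) ∨ (dt p (vec s) ≤ 0 ∧
    ∃ i : ℤ, 0 ≤ i ∧ i ≤ T + 12 ∧ near 12 (p + e) (pos l2 + (i, 0, 0)))

/-- docks exist -/
def Q_dock : Prop := ∃ κ : ℕ, ∀ T : ℕ, κ ≤ T → ∃ lam β : ℕ, ∀ R : ℕ, 2000 ≤ R → LLd T 9 R →
  ∀ Pc : List Dir → Prop, SI Pc → DockQ Pc T κ lam β R

/-- the joins of two polygons of lengths `n` and `m` at the base point -/
def JQ (β lam n m : ℕ) (W : List Dir) : Prop := W.length = n + m + 2 * β ∧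
  pos (W.drop (n + β - 1)) = (0, 0, 1) ∧
  ∀ i j : ℕ, lam ≤ i → i + lam ≤ n + β - 1 → n + β + lam ≤ j → j + lam ≤ n + m + 2 * β - 1 →
    1 < dt (pos (W.drop i) - pos (W.drop j)) (pos (W.drop i) - pos (W.drop j))

/-- the relative positions at which the projections along the first axis meet -/
def Rel (w1 w2 : List Dir) : Finset (ℤ × ℤ) :=
  ((path w1).toFinset ×ˢ (path w2).toFinset).image (fun x => x.1.2 - x.2.2)

/-- two polygons of lengths `n` and `m` and a relative position `t` give a join -/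
def GlueQ (Pc Qc Rc : List Dir → Prop) (β lam K₀ : ℕ) : Prop := ∀ n m : ℕ, lam ≤ n → lam ≤ m →
  ∀ w1 ∈ K Pc n, ∀ w2 ∈ K Qc m,
  ∀ t : ℤ × ℤ, t ∈ Rel w1 w2 →
  ∃ (A B C S A' B' C' S' : List Dir) (k k' : ℕ), k < n ∧ k' < m ∧
    A.length ≤ lam ∧ B.length ≤ lam ∧ A'.length ≤ lam ∧ B'.length ≤ lam ∧
    w1.rotate k = C ++ S ∧ w2.rotate k' = C' ++ S' ∧
    (A ++ S ++ B).length + 1 = n + β ∧ (A' ++ S' ++ B').length + 1 = m + β ∧
    jw A S B A' S' B' ∈ K Rc (n + m + 2 * β) ∧ JQ β lam n m (jw A S B A' S' B') ∧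
    near K₀ (0, t) (0, (pos (w1.drop k) - (0, 0, 1) - pos B - pos (w2.drop k') + (1, 0, 0) +
      pos B').2)

/-- the main construction -/
def Q_glue (Pc Qc Rc : List Dir → Prop) : Prop := ∃ β lam K₀ : ℕ, GlueQ Pc Qc Rc β lam K₀

/-- counting the preimages -/
def Q_count (Pc Qc Rc : List Dir → Prop) : Prop := ∀ β lam K₀ : ℕ, GlueQ Pc Qc Rc β lam K₀ →
  ∃ C : ℕ, ∀ n m : ℕ, lam ≤ n → lam ≤ m →
  (∑ w1 ∈ K Pc n, ∑ w2 ∈ K Qc m, (Rel w1 w2).card) ≤
    C * (n * m) * ((K Rc (n + m + 2 * β)).filter (JQ β lam n m)).card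

/-- a polygon is a join at few of its vertices -/
def Q_mult (Rc : List Dir → Prop) : Prop := ∀ β lam : ℕ, ∃ C N₀ : ℕ, ∀ n m : ℕ, N₀ ≤ n → N₀ ≤ m →
  min n m * ((K Rc (n + m + 2 * β)).filter (JQ β lam n m)).card ≤ C * a Rc (n + m + 2 * β)

/-- the extent of a closed word in the direction of the third axis -/
def wid (w : List Dir) : ℕ :=
  ((path w).toFinset ×ˢ (path w).toFinset).sup (fun x => (x.1.2.2 - x.2.2.2).natAbs)

/-- the mean extent of the polygons of length `n` of class `Pc` in the direction of the third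
axis -/
def mw (Pc : List Dir → Prop) (n : ℕ) : ℝ := (∑ w ∈ K Pc n, (wid w : ℝ)) / a Pc n

/-- projections -/
def Q_proj (Pc : List Dir → Prop) : Prop := ∀ n : ℕ, 4 ≤ n → (n : ℝ) ^ (2 / 3 : ℝ) * a Pc n ≤
  3 * ∑ w ∈ K Pc n, (((path w).map Prod.snd).toFinset.card : ℝ)

end

end KQ

end KN
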